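import Pool.Agent.E870.P.Lef
import Pool.Agent.E870.Q.Lef

/-!
# Murre's conjectures for the class `LowClass`, in the form in which the result is stated
-/

open Pool.Agent.H914 Pool.Agent.R903

universe u v w

namespace Pool.Agent.E870.P

variable {k : Type u} [Field k] {𝒱 : VarClass k} {C : ChowTheory.{u, v} 𝒱}
variable {W : WeilTheory.{u, v, w} C} {P : 𝒱.Obj → Prop}

theorem q_lowClass_of {X : 𝒱.Obj} (hA : W.HasCK X) (hL : Q.LefschetzStd W X) :
    Q.LowClass W X := by
  refine lowClass_iff.2 ⟨hA, LefschetzStd.isLow ?_⟩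
  obtain ⟨D, hD, h⟩ := hL
  refine ⟨D, hD, fun j hj => ?_⟩
  obtain ⟨Λ, h1, h2⟩ := h j hj
  exact ⟨Λ, h1, h2⟩

theorem q_lowClass (hC : Q.IsGeometric C.toChowData) : Q.IsClosedClass (Q.LowClass W) where
  prod_mem hX hY := lowClass_iff.2 ((isClosedClass_lowClass (polarized_of hC.1)).prod_mem
    (lowClass_iff.1 hX) (lowClass_iff.1 hY))
  curve_mem hE := lowClass_iff.2 ((isClosedClass_lowClass (polarized_of hC.1)).curve_mem hE)

theorem q_murre_iff (hC : Q.IsGeometric C.toChowData) (hP : Q.IsClosedClass P)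
    (hL : ∀ X, P X → Q.LowClass W X) :
    (∀ X, P X → W.MurreB X ∧ W.MurreC X ∧ Q.MurreD W X) ↔ ∀ X, P X → Q.FaithfulMid W X :=
  murre_iff (polarized_of hC.1) (blochSrinivas_of hC.2) (hasDegenerating_of hC.3) hP
    fun X hX => (lowClass_iff.1 (hL X hX)).2

end Pool.Agent.E870.P
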