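import Pool.Agent.E870.P.BB
import Pool.Agent.E870.P.FinalLef
import Pool.Agent.E870.Q.BBDefs

/-!
# Bloch–Beilinson filtrations, in the form in which the result is stated
-/

open Pool.Agent.H914 Pool.Agent.R903

universe u v w

namespace Pool.Agent.E870.P

variable {k : Type u} [Field k] {𝒱 : VarClass k} {C : ChowTheory.{u, v} 𝒱}
variable {W : WeilTheory.{u, v, w} C} {P : 𝒱.Obj → Prop}

lemma isBlochBeilinson_iff {F : Q.Fil C.toChowData} :
    Q.IsBlochBeilinson W P F ↔ IsBlochBeilinson W P F := by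
  constructor
  · rintro ⟨⟨h1, h2, h3, h4⟩, ⟨h5, h6, h7⟩, h8⟩
    refine ⟨⟨fun hX i ν x => h1 hX i ν x, fun hX i => Submodule.ext fun x => h2 hX i x,
      fun hX i x => h3 hX i x, fun hX i => (Submodule.eq_bot_iff _).2 fun x => h4 hX i x⟩,
      ⟨h5, h6, h7⟩, h8⟩
  · rintro ⟨⟨h1, h2, h3, h4⟩, ⟨h5, h6, h7⟩, h8⟩
    refine ⟨⟨fun hX i ν x => @h1 _ hX i ν x, fun hX i x => (SetLike.ext_iff.1 (h2 hX i)) x,
      fun hX i x => h3 hX i x, fun hX i x => (Submodule.eq_bot_iff _).1 (h4 hX i) x⟩,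
      ⟨h5, h6, h7⟩, h8⟩

theorem q_exists_blochBeilinson_iff (hC : Q.IsGeometric C.toChowData) (hP : Q.IsClosedClass P)
    (hL : ∀ X, P X → Q.LowClass W X) :
    (∃ F, Q.IsBlochBeilinson W P F) ↔ ∀ X, P X → Q.FaithfulMid W X := by
  simp only [isBlochBeilinson_iff]
  exact exists_blochBeilinson_iff (polarized_of hC.1) (blochSrinivas_of hC.2)
    (hasDegenerating_of hC.3) hP (fun X hX => (hL X hX).1) fun X hX => (lowClass_iff.1 (hL X hX)).2

end Pool.Agent.E870.P
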