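import Pool.Agent.E870.P.Kun
import Pool.Agent.E870.P.FinalBB
import Pool.Agent.E870.Q.AJDefs

/-!
# Bloch–Beilinson filtrations and Abel–Jacobi maps
-/

open CategoryTheory CategoryTheory.Limits AlgebraicGeometry
open Pool.Agent.H914 Pool.Agent.H914.VarClass Pool.Agent.H914.VarClass.Obj Pool.Agent.R903
open Pool.Agent.E870.Q
open Pool.Agent.R903.WeilTheory

universe u v w

namespace Pool.Agent.E870.P

variable {k : Type u} [Field k] {𝒱 : VarClass k} {C : ChowTheory.{u, v} 𝒱}
variable {W : WeilTheory.{u, v, w} C} {X Y Z E : 𝒱.Obj} {P : 𝒱.Obj → Prop}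
variable {K : ∀ X : 𝒱.Obj, ℕ → Submodule ℚ (C.CH X)}

lemma kernel_ext (hK : IsAbelJacobiKernel W K) {i q : ℕ} {x : C.CH X} {z : C.CH E}
    (hx : x ∈ K X i) (hz : z ∈ C.gr E q) : C.ext x z ∈ K (X.prod E) (i + q) := by
  have h1 : C.span (fst X E) (𝟙 (X.prod E)) (C.pull (snd X E) z) ∈
      C.gr (X.prod (X.prod E)) (X.dim + q) :=
    C.span_mem _ _ (C.pull_mem _ hz) (by simp only [dim_prod]; omega)
  have h2 : C.act (C.span (fst X E) (𝟙 (X.prod E)) (C.pull (snd X E) z)) x = C.ext x z := by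
    rw [C.act_span, C.push_id, ChowTheory.ext, mul_comm]
  rw [← h2]
  exact hK.corr h1 (by omega) hx

/-- Reduction of the injectivity of the Abel–Jacobi maps on `CH^i(h^(2i-1)(X))` to
`dim X = 2i - 1`. -/
theorem ajInj_of_mid (hK : IsAbelJacobiKernel W K) (hW : IsClosedClass P) (hE : E.dim = 1)
    {e : C.CH E} (he : e ∈ C.gr E 1) (hd : C.deg E e = 1)
    (H : ∀ X, P X → AbelJacobiInjMid W K X) (n : ℕ) :
    ∀ X, P X → ∀ (π : ℕ → C.CH (X.prod X)), W.IsCK X π → ∀ (i : ℕ), 1 ≤ i →
      (X.dim + 1 + n = 2 * i ∨ X.dim + 1 = 2 * i + n) →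
      ∀ x ∈ K X i, C.act (π (2 * i - 1)) x = x → x = 0 := by
  have hE' : W.IsCK E (curveCK C E e) := isCK_curve hE he hd
  induction n with
  | zero =>
    intro X hX π h i h1 hi x hx hfix
    refine H X hX π h i x (by omega) hx ?_
    rw [show 2 * i - 1 = X.dim by omega] at hfix
    exact hfix
  | succ n ih =>
    intro X hX π h i h1 hi x hx hfix
    have hXE := hW.prod_mem hX (hW.curve_mem hE)
    rcases hi with hi | hi
    · refine eq_zero_of_ext_one hd ?_
      have h2 := act_prodCK_ext_gen h hE' hfix (act_curveCK_zero hd)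
      refine ih _ hXE _ (h.prod hE') i h1 (Or.inl (by rw [dim_prod, hE]; omega)) _ ?_ ?_
      · exact kernel_ext hK hx (C.one_mem E)
      · exact h2
    · refine eq_zero_of_ext_e hd ?_
      have h2 := act_prodCK_ext_gen h hE' hfix (act_curveCK_two hd)
      refine ih _ hXE _ (h.prod hE') (i + 1) (by omega) (Or.inr (by rw [dim_prod, hE]; omega)) _
        ?_ ?_
      · exact kernel_ext hK hx he
      · rwa [show 2 * (i + 1) - 1 = 2 * i - 1 + 2 by omega]

theorem ajInj (hP : C.Polarized) (hBS : BlochSrinivas C) (hF : HasDegenerating C)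
    (hK : IsAbelJacobiKernel W K) (hW : IsClosedClass P)
    (H : ∀ X, P X → AbelJacobiInjMid W K X) (hX : P X) {π : ℕ → C.CH (X.prod X)}
    (h : W.IsCK X π) {i : ℕ} (hi : 1 ≤ i) {x : C.CH X} (hx : x ∈ K X i)
    (hfix : C.act (π (2 * i - 1)) x = x) : x = 0 := by
  by_cases hE : ∃ E : 𝒱.Obj, E.dim = 1
  · obtain ⟨E, hE⟩ := hE
    obtain ⟨e, he, hd⟩ := exists_deg_one hP hE
    exact ajInj_of_mid hK hW hE he hd H (2 * i - (X.dim + 1) + (X.dim + 1 - 2 * i)) X hX π h i hi
      (by omega) x hx hfix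
  · exact eq_zero_of_no_curve hBS hF hE x

/-- The second step of the filtration is the kernel of the Abel–Jacobi map. -/
theorem mem_ckFil_two_iff (hK : IsAbelJacobiKernel W K) {π : ℕ → C.CH (X.prod X)}
    (h : W.IsCK X π) (hD : MurreD W X)
    (hJ : ∀ i, 1 ≤ i → ∀ x ∈ K X i, C.act (π (2 * i - 1)) x = x → x = 0) (i : ℕ) (x : C.CH X) :
    x ∈ C.ckFil π i 2 ↔ x ∈ K X i := by
  constructor
  · intro hx
    rw [mem_ckFil h] at hx
    have h1 : x ∈ C.ckFil π i 1 := (mem_ckFil h).2 ⟨hx.1, fun b hb => hx.2 b (by omega)⟩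
    have h2 := (hD π h i x).1 h1
    rw [← h.sum_act x]
    refine Submodule.sum_mem _ fun b _ => ?_
    by_cases hb : 2 * i < b + 2
    · rw [hx.2 b hb]
      exact Submodule.zero_mem _
    · exact hK.zero (h.mem b) rfl (m := 2 * i - 1) (by omega)
        (fun a ha => by rw [h.proj b _ a ha, if_neg (by omega)]) hx.1 h2.2
  · intro hx
    obtain ⟨h1, h2⟩ := hK.homTrivial hx
    have h3 : x ∈ C.ckFil π i 1 := (hD π h i x).2 ⟨h1, h2⟩
    rw [mem_ckFil h] at h3 ⊢
    refine ⟨h1, fun b hb => ?_⟩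
    by_cases hb1 : 2 * i < b + 1
    · exact h3.2 b hb1
    · obtain rfl : b = 2 * i - 1 := by omega
      refine hJ i (by omega) _ (hK.corr (h.mem _) rfl hx) ?_
      exact act_idem h _ _

/-- Correspondences respect the filtrations given by Chow–Künneth decompositions. -/
lemma act_mem_ckF (hW : IsClosedClass P) (hA : ∀ X, P X → W.HasCK X)
    (hB : ∀ X, P X → W.MurreB X) (hC : ∀ X, P X → W.MurreC X) {X Y : 𝒱.Obj} (hX : P X) (hY : P Y)
    {c i j ν : ℕ} {γ : C.CH (X.prod Y)} {x : C.CH X} (hγ : γ ∈ C.gr (X.prod Y) c)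
    (hij : i + c = j + X.dim) (hx : x ∈ ckF W X i ν) : C.act γ x ∈ ckF W Y j ν := by
  obtain ⟨π, h⟩ := hA X hX
  obtain ⟨ρ, h'⟩ := hA Y hY
  rw [ckF_eq (hC X hX) h] at hx
  rw [ckF_eq (hC Y hY) h']
  exact act_mem_ckFil (fun i π hπ => (hB _ (hW.prod_mem hX hY) π hπ i).1) h h' hγ hij hx

/-- The condition on the Abel–Jacobi map is necessary. -/
lemma injMid_of {F : Fil C.toChowData} (hF : IsBlochBeilinsonAJ W K P F)
    (hX : P X) : AbelJacobiInjMid W K X := by
  intro π h i x hi hx hfix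
  have key : ∀ n, n + 2 ≤ i + 1 → x ∈ F X i (n + 2) := by
    intro n
    induction n with
    | zero => exact fun _ => (hF.two hX i x).2 hx
    | succ n ih =>
      intro hn
      have h2 := hF.factors hX hX (c := X.dim) (i := i) (j := i) (m := 2 * i - (n + 2))
        (ν := n + 2) (h.mem X.dim) rfl (by omega)
        (fun a ha => by rw [h.proj _ _ a ha, if_neg (by omega)]) (ih (by omega))
      have h3 : C.act (π X.dim) x ∈ F X i (n + 2 + 1) := h2
      rwa [show C.act (π X.dim) x = x from hfix] at h3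
  have h4 := key (i - 1) (by omega)
  rw [show i - 1 + 2 = i + 1 by omega] at h4
  exact hF.isFiltration.last hX i x h4

/-- **Theorem 6.** For a class of varieties which satisfy the Lefschetz standard conjecture, a
Bloch–Beilinson filtration with `F^2` the kernel of the Abel–Jacobi maps exists if and only if the
varieties have Chow–Künneth decompositions, the endomorphisms of `h^d(X)`, `d = dim X`, act
faithfully on `H^d(X)`, and the Abel–Jacobi map is injective on `CH^i(h^(2i-1)(X))` for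
`dim X = 2i - 1`. -/
theorem exists_blochBeilinsonAJ_iff (hP : C.Polarized) (hBS : BlochSrinivas C)
    (hF : HasDegenerating C) (hK : IsAbelJacobiKernel W K) (hW : IsClosedClass P)
    (hL : ∀ X, P X → LefschetzStd W X) :
    (∃ F, IsBlochBeilinsonAJ W K P F) ↔
      ∀ X, P X → W.HasCK X ∧ FaithfulMid W X ∧ AbelJacobiInjMid W K X := by
  constructor
  · rintro ⟨F, hF⟩ X hX
    have h1 : IsFiltration W P F := by
      obtain ⟨a1, a2, a3, a4⟩ := hF.isFiltration
      exact ⟨fun hX i ν x => a1 hX i ν x, fun hX i => Submodule.ext fun x => a2 hX i x,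
        fun hX i x => a3 hX i x, fun hX i => (Submodule.eq_bot_iff _).2 fun x => a4 hX i x⟩
    have h2 : FactorsThroughCoh W P F := hF.factors
    exact ⟨hasCK_of hW h1 h2 hX (hL X hX), (faithfulEnd_of hW h1 h2 hX).mid, injMid_of hF hX⟩
  · intro H
    have hA : ∀ X, P X → W.HasCK X := fun X hX => (H X hX).1
    have h1 := (murre_iff hP hBS hF hW fun X hX => (hL X hX).isLow).2 fun X hX => (H X hX).2.1
    have hB : ∀ X, P X → W.MurreB X := fun X hX => (h1 X hX).1
    have hC : ∀ X, P X → W.MurreC X := fun X hX => (h1 X hX).2.1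
    have hD : ∀ X, P X → MurreD W X := fun X hX => (h1 X hX).2.2
    have h2 := isBlochBeilinson_iff.2 (isBlochBeilinson_ckF hW hA hB hC hD)
    refine ⟨ckF W, h2.isFiltration, ?_, ?_, h2.factors⟩
    · intro X hX i x
      obtain ⟨π, h⟩ := hA X hX
      have h3 := mem_ckFil_two_iff hK h (hD X hX)
        (fun i hi x hx hfix => ajInj hP hBS hF hK hW (fun X hX => (H X hX).2.2) hX h hi hx hfix)
        i x
      rw [← ckF_eq (hC X hX) h] at h3
      exact h3
    · intro X Y hX hY c i j ν γ x hγ hij hx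
      exact act_mem_ckF hW hA hB hC hX hY hγ hij hx

end Pool.Agent.E870.P
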