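import Pool.Agent.E870.P.Defs

/-!
# Bloch–Beilinson filtrations: definition
-/

open CategoryTheory CategoryTheory.Limits AlgebraicGeometry
open Pool.Agent.H914 Pool.Agent.H914.VarClass Pool.Agent.H914.VarClass.Obj Pool.Agent.R903
open Pool.Agent.E870.Q

universe u v w

namespace Pool.Agent.E870.P

variable {k : Type u} [Field k] {𝒱 : VarClass k} {C : ChowTheory.{u, v} 𝒱}

/-- Conditions 1 and 2 on the filtrations `F X i ν = F^ν CH^i(X)`, for the varieties in `P`: they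
are decreasing, `F^0 CH^i(X) = CH^i(X)`, `F^1 CH^i(X)` consists of the homologically trivial
classes, and `F^(i+1) CH^i(X) = 0`. -/
structure IsFiltration (W : WeilTheory.{u, v, w} C) (P : 𝒱.Obj → Prop)
    (F : ∀ X : 𝒱.Obj, ℕ → ℕ → Submodule ℚ (C.CH X)) : Prop where
  anti : ∀ {X : 𝒱.Obj}, P X → ∀ i ν, F X i (ν + 1) ≤ F X i ν
  zero : ∀ {X : 𝒱.Obj}, P X → ∀ i, F X i 0 = C.gr X i
  one : ∀ {X : 𝒱.Obj}, P X → ∀ i x, x ∈ F X i 1 ↔ x ∈ C.gr X i ∧ W.cl X x = 0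
  last : ∀ {X : 𝒱.Obj}, P X → ∀ i, F X i (i + 1) = ⊥

/-- Conditions 3 and 4: the filtrations are compatible with the intersection product, with
pull-back and with push-forward, for the varieties in `P`. -/
structure IsMultiplicative (P : 𝒱.Obj → Prop)
    (F : ∀ X : 𝒱.Obj, ℕ → ℕ → Submodule ℚ (C.CH X)) : Prop where
  mul : ∀ {X : 𝒱.Obj}, P X → ∀ {i j ν μ : ℕ} {x y : C.CH X}, x ∈ F X i ν → y ∈ F X j μ →
    x * y ∈ F X (i + j) (ν + μ)
  pull : ∀ {X Y : 𝒱.Obj}, P X → P Y → ∀ (f : X ⟶ Y) {i ν : ℕ} {y : C.CH Y}, y ∈ F Y i ν →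
    C.pull f y ∈ F X i ν
  push : ∀ {X Y : 𝒱.Obj}, P X → P Y → ∀ (f : X ⟶ Y) {i j ν : ℕ} {x : C.CH X}, x ∈ F X i ν →
    i + Y.dim = j + X.dim → C.push f x ∈ F Y j ν

/-- Condition 5, for all correspondences between varieties in `P`: if `γ ∈ CH^c(X × Y)` maps
`CH^i(X)` to `CH^j(Y)` and acts as zero on `H^m(X)`, where `m = 2i - ν`, then `γ` induces the zero
map from `F^ν CH^i(X) / F^(ν+1) CH^i(X)` to `F^ν CH^j(Y) / F^(ν+1) CH^j(Y)`. -/
def FactorsThroughCoh (W : WeilTheory.{u, v, w} C) (P : 𝒱.Obj → Prop)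
    (F : ∀ X : 𝒱.Obj, ℕ → ℕ → Submodule ℚ (C.CH X)) : Prop :=
  ∀ {X Y : 𝒱.Obj}, P X → P Y → ∀ {c i j m ν : ℕ} {γ : C.CH (X.prod Y)} {x : C.CH X},
    γ ∈ C.gr (X.prod Y) c → i + c = j + X.dim → m + ν = 2 * i → (∀ a ∈ W.gr X m, W.act γ a = 0) →
      x ∈ F X i ν → C.act γ x ∈ F Y j (ν + 1)

/-- `F` is a Bloch–Beilinson filtration on the Chow groups of the varieties in `P`. -/
structure IsBlochBeilinson (W : WeilTheory.{u, v, w} C) (P : 𝒱.Obj → Prop)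
    (F : ∀ X : 𝒱.Obj, ℕ → ℕ → Submodule ℚ (C.CH X)) : Prop where
  isFiltration : IsFiltration W P F
  isMultiplicative : IsMultiplicative P F
  factors : FactorsThroughCoh W P F

end Pool.Agent.E870.P
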