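import Pool.Agent.E870.P.Lef
import Pool.Agent.E870.P.BBDefs

/-!
# The Bloch–Beilinson filtration and the endomorphisms of `h^b(X)`
-/

open CategoryTheory CategoryTheory.Limits AlgebraicGeometry
open Pool.Agent.H914 Pool.Agent.H914.VarClass Pool.Agent.H914.VarClass.Obj Pool.Agent.R903
open Pool.Agent.E870.Q
open Pool.Agent.R903.WeilTheory

universe u v w

namespace Pool.Agent.E870.P

variable {k : Type u} [Field k] {𝒱 : VarClass k} {C : ChowTheory.{u, v} 𝒱}
variable {W : WeilTheory.{u, v, w} C} {X Y Z E : 𝒱.Obj} {P : 𝒱.Obj → Prop}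

/-- the action of the product decomposition on a block -/
lemma act_prodCK_block' {π : ℕ → C.CH (X.prod X)} {ρ : ℕ → C.CH (Y.prod Y)} (h : W.IsCK X π)
    (h' : W.IsCK Y ρ) {a : ℕ} (ha : a ≤ 2 * X.dim) (b : ℕ) (γ : C.CH (X.prod Y)) :
    C.act (prodCK C (transCK C π) ρ (2 * X.dim - a + b))
      (C.comp (C.comp (π a) γ) (ρ b)) = C.comp (C.comp (π a) γ) (ρ b) := by
  rw [prodCK, act_sum_apply]
  rw [Finset.sum_eq_single (2 * X.dim - a, b)]
  · have ha : 2 * X.dim - a ≤ 2 * X.dim := Nat.sub_le _ _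
    have ha2 : 2 * X.dim - (2 * X.dim - a) = a := by omega
    rw [transCK, if_pos ha, C.act_tensor, ha2, ← C.comp_assoc, ← C.comp_assoc, h.idem,
      C.comp_assoc, h'.idem]
  · rintro ⟨p, q⟩ _ hne
    rw [transCK]
    split_ifs with hp
    · rw [C.act_tensor]
      by_cases hpa : 2 * X.dim - p = a
      · have hqb : b ≠ q := by
          rintro rfl
          apply hne
          have hp : p = 2 * X.dim - a := by
            dsimp only at *
            omega
          rw [hp]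
        rw [C.comp_assoc, C.comp_assoc, h'.orth b q hqb, C.comp_zero, C.comp_zero]
      · rw [← C.comp_assoc, ← C.comp_assoc, h.orth _ _ hpa, C.zero_comp, C.zero_comp,
          C.zero_comp]
    · rw [C.zero_tensor, C.act_zero, LinearMap.zero_apply]
  · intro hnot
    exact (hnot (Finset.HasAntidiagonal.mem_antidiagonal.2 rfl)).elim

/-- `Hom(h^a(X), h^b(Y)(n)) = 0` if `b - 2n > a`. -/
lemma block_eq_zero_of_lt (hB : ∀ i, W.MurreB0 (X.prod Y) i) {π : ℕ → C.CH (X.prod X)}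
    {ρ : ℕ → C.CH (Y.prod Y)} (h : W.IsCK X π) (h' : W.IsCK Y ρ) {a b c : ℕ}
    {γ : C.CH (X.prod Y)} (hγ : γ ∈ C.gr (X.prod Y) c) (hab : a + 2 * c < b + 2 * X.dim) :
    C.comp (C.comp (π a) γ) (ρ b) = 0 := by
  by_cases ha : 2 * X.dim < a
  · rw [h.eq_zero ha, C.zero_comp, C.zero_comp]
  have hCK := h.transp.prod h'
  have h1 := (ckFil_zero_eq_iff hCK).1 (hB c _ hCK) (2 * X.dim - a + b) (by omega)
    (C.comp (C.comp (π a) γ) (ρ b))
    (C.comp_mem (C.comp_mem (h.mem a) hγ (by omega)) (h'.mem b) rfl)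
  rwa [act_prodCK_block' h h' (by omega)] at h1

/-- `Hom(h^a(X), h^b(Y)(n))` acts faithfully on `H^a(X)` if `b - 2n = a`. -/
lemma block_eq_zero_of_eq (hD : MurreD0 W (X.prod Y)) {π : ℕ → C.CH (X.prod X)}
    {ρ : ℕ → C.CH (Y.prod Y)} (h : W.IsCK X π) (h' : W.IsCK Y ρ) {a b c : ℕ}
    {γ : C.CH (X.prod Y)} (hγ : γ ∈ C.gr (X.prod Y) c) (hab : a + 2 * c = b + 2 * X.dim)
    (h0 : ∀ x ∈ W.gr X a, W.act γ x = 0) :
    C.comp (C.comp (π a) γ) (ρ b) = 0 := by
  by_cases ha : 2 * X.dim < a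
  · rw [h.eq_zero ha, C.zero_comp, C.zero_comp]
  have hact : ∀ x, W.act (C.comp (C.comp (π a) γ) (ρ b)) x = 0 := by
    intro x
    rw [W.act_comp _ (h'.mem b), W.act_comp _ hγ]
    refine gr_induction (W.isInternal X)
      (p := fun x => W.act (ρ b) (W.act γ (W.act (π a) x)) = 0) ?_ ?_ x
    · intro l x hx
      rw [h.proj a l x hx]
      split_ifs with hl
      · subst hl
        rw [h0 x hx, map_zero]
      · rw [map_zero, map_zero]
    · intro x y hx hy
      rw [map_add, map_add, map_add, hx, hy, add_zero]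
  have h1 := act_prodCK_block' h h' (a := a) (by omega) b γ
  rw [show 2 * X.dim - a + b = 2 * c by omega] at h1
  exact hD _ (h.transp.prod h') c _
    (C.comp_mem (C.comp_mem (h.mem a) hγ (by omega)) (h'.mem b) rfl) h1 (cl_eq_zero_of_act hact)

/-- the action of a correspondence on the filtrations given by Chow–Künneth decompositions -/
lemma act_mem_ckFil (hB : ∀ i, W.MurreB0 (X.prod Y) i) {π : ℕ → C.CH (X.prod X)}
    {ρ : ℕ → C.CH (Y.prod Y)} (h : W.IsCK X π) (h' : W.IsCK Y ρ) {c i j ν : ℕ}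
    {γ : C.CH (X.prod Y)} (hγ : γ ∈ C.gr (X.prod Y) c) (hij : i + c = j + X.dim) {x : C.CH X}
    (hx : x ∈ C.ckFil π i ν) : C.act γ x ∈ C.ckFil ρ j ν := by
  rw [mem_ckFil h] at hx
  rw [mem_ckFil h']
  refine ⟨C.act_mem hγ hx.1 hij, fun b hb => ?_⟩
  rw [← h.sum_act x, map_sum, map_sum]
  refine Finset.sum_eq_zero fun a _ => ?_
  by_cases ha : 2 * i < a + ν
  · rw [hx.2 a ha, map_zero, map_zero]
  · rw [← C.act_comp, ← C.act_comp, ← C.comp_assoc, block_eq_zero_of_lt hB h h' hγ (by omega), C.act_zero,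
      LinearMap.zero_apply]

lemma act_mem_ckFil_succ (hB : ∀ i, W.MurreB0 (X.prod Y) i) (hD : MurreD0 W (X.prod Y))
    {π : ℕ → C.CH (X.prod X)} {ρ : ℕ → C.CH (Y.prod Y)} (h : W.IsCK X π) (h' : W.IsCK Y ρ)
    {c i j m ν : ℕ} {γ : C.CH (X.prod Y)} (hγ : γ ∈ C.gr (X.prod Y) c) (hij : i + c = j + X.dim)
    (hm : m + ν = 2 * i) (h0 : ∀ a ∈ W.gr X m, W.act γ a = 0) {x : C.CH X}
    (hx : x ∈ C.ckFil π i ν) : C.act γ x ∈ C.ckFil ρ j (ν + 1) := by
  rw [mem_ckFil h] at hx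
  rw [mem_ckFil h']
  refine ⟨C.act_mem hγ hx.1 hij, fun b hb => ?_⟩
  rw [← h.sum_act x, map_sum, map_sum]
  refine Finset.sum_eq_zero fun a _ => ?_
  by_cases ha : 2 * i < a + ν
  · rw [hx.2 a ha, map_zero, map_zero]
  · rw [← C.act_comp, ← C.act_comp, ← C.comp_assoc]
    by_cases hab : a + 2 * c < b + 2 * X.dim
    · rw [block_eq_zero_of_lt hB h h' hγ hab, C.act_zero, LinearMap.zero_apply]
    · have ham : a = m := by omega
      subst ham
      rw [block_eq_zero_of_eq hD h h' hγ (by omega) h0, C.act_zero, LinearMap.zero_apply]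

lemma ext_mem_ckFil {π : ℕ → C.CH (X.prod X)} {ρ : ℕ → C.CH (Y.prod Y)} (h : W.IsCK X π)
    (h' : W.IsCK Y ρ) {i j ν μ : ℕ} {x : C.CH X} {y : C.CH Y} (hx : x ∈ C.ckFil π i ν)
    (hy : y ∈ C.ckFil ρ j μ) : C.ext x y ∈ C.ckFil (prodCK C π ρ) (i + j) (ν + μ) := by
  rw [mem_ckFil h] at hx
  rw [mem_ckFil h'] at hy
  rw [mem_ckFil (h.prod h')]
  refine ⟨C.ext_mem hx.1 hy.1, fun b hb => ?_⟩
  rw [prodCK, act_sum_apply]
  refine Finset.sum_eq_zero ?_
  rintro ⟨p, q⟩ hpq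
  rw [Finset.HasAntidiagonal.mem_antidiagonal] at hpq
  rw [act_tensor_ext]
  by_cases hp : 2 * i < p + ν
  · rw [hx.2 p hp, zero_ext]
  · rw [hy.2 q (by dsimp only at *; omega), ext_zero]

open Classical in
/-- the filtration given by some Chow–Künneth decomposition -/
noncomputable def ckF (W : WeilTheory.{u, v, w} C) (X : 𝒱.Obj) (i ν : ℕ) :
    Submodule ℚ (C.CH X) :=
  if h : W.HasCK X then C.ckFil h.choose i ν else ⊥

lemma ckF_eq (hC : W.MurreC X) {π : ℕ → C.CH (X.prod X)} (h : W.IsCK X π) (i ν : ℕ) :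
    ckF W X i ν = C.ckFil π i ν := by
  have h1 : W.HasCK X := ⟨π, h⟩
  rw [ckF, dif_pos h1]
  exact hC i ν _ _ h1.choose_spec h

/-- Murre's conjectures give a Bloch–Beilinson filtration. -/
theorem isBlochBeilinson_ckF (hW : IsClosedClass P) (hA : ∀ X, P X → W.HasCK X)
    (hB : ∀ X, P X → W.MurreB X) (hC : ∀ X, P X → W.MurreC X) (hD : ∀ X, P X → MurreD W X) :
    IsBlochBeilinson W P (ckF W) := by
  have hB0 : ∀ {X}, P X → ∀ i, W.MurreB0 X i := fun hX i π h => (hB _ hX π h i).1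
  have corr : ∀ {X Y : 𝒱.Obj}, P X → P Y → ∀ {c i j ν : ℕ} {γ : C.CH (X.prod Y)} {x : C.CH X},
      γ ∈ C.gr (X.prod Y) c → i + c = j + X.dim → x ∈ ckF W X i ν → C.act γ x ∈ ckF W Y j ν := by
    intro X Y hX hY c i j ν γ x hγ hij hx
    obtain ⟨π, h⟩ := hA X hX
    obtain ⟨ρ, h'⟩ := hA Y hY
    rw [ckF_eq (hC X hX) h] at hx
    rw [ckF_eq (hC Y hY) h']
    exact act_mem_ckFil (hB0 (hW.prod_mem hX hY)) h h' hγ hij hx
  refine ⟨⟨?_, ?_, ?_, ?_⟩, ⟨?_, ?_, ?_⟩, ?_⟩
  · intro X hX i ν x hx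
    obtain ⟨π, h⟩ := hA X hX
    rw [ckF_eq (hC X hX) h, mem_ckFil h] at hx ⊢
    exact ⟨hx.1, fun b hb => hx.2 b (by omega)⟩
  · intro X hX i
    obtain ⟨π, h⟩ := hA X hX
    rw [ckF_eq (hC X hX) h]
    exact hB0 hX i π h
  · intro X hX i x
    obtain ⟨π, h⟩ := hA X hX
    rw [ckF_eq (hC X hX) h]
    exact hD X hX π h i x
  · intro X hX i
    obtain ⟨π, h⟩ := hA X hX
    rw [ckF_eq (hC X hX) h]
    exact (hB X hX π h i).2
  · intro X hX i j ν μ x y hx hy
    obtain ⟨π, h⟩ := hA X hX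
    have hXX := hW.prod_mem hX hX
    rw [ckF_eq (hC X hX) h] at hx hy
    have h1 := ext_mem_ckFil h h hx hy
    rw [← ckF_eq (hC _ hXX) (h.prod h)] at h1
    have h2 := corr hXX hX (C.cograph_mem (diag X)) rfl h1
    rwa [C.act_cograph, C.pull_diag_ext] at h2
  · intro X Y hX hY f i ν y hy
    have h2 := corr hY hX (C.cograph_mem f) rfl hy
    rwa [C.act_cograph] at h2
  · intro X Y hX hY f i j ν x hx hij
    have h2 := corr hX hY (C.graph_mem f) hij hx
    rwa [C.act_graph] at h2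
  · intro X Y hX hY c i j m ν γ x hγ hij hm h0 hx
    obtain ⟨π, h⟩ := hA X hX
    obtain ⟨ρ, h'⟩ := hA Y hY
    have hXY := hW.prod_mem hX hY
    rw [ckF_eq (hC X hX) h] at hx
    rw [ckF_eq (hC Y hY) h']
    exact act_mem_ckFil_succ (hB0 hXY) (hD _ hXY).murreD0 h h' hγ hij hm h0 hx

/-- A Bloch–Beilinson filtration forces the endomorphisms of `h^b(X)` to act faithfully. -/
theorem IsBlochBeilinson.faithfulEnd (hW : IsClosedClass P)
    {F : ∀ X : 𝒱.Obj, ℕ → ℕ → Submodule ℚ (C.CH X)} (hF : IsBlochBeilinson W P F) (hX : P X) :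
    FaithfulEnd W X := by
  intro π h b γ hγ hfix h0
  by_cases hb : 2 * X.dim < b
  · rw [← hfix, h.eq_zero hb, C.comp_zero]
  have hXX := hW.prod_mem hX hX
  have hact : ∀ a, W.act γ a = 0 := by
    have hdec : ∀ a, W.act γ a = W.act (π b) (W.act γ (W.act (π b) a)) := by
      intro a
      conv_lhs => rw [← hfix]
      rw [W.act_comp _ (h.mem b), W.act_comp _ hγ]
    intro a
    refine gr_induction (W.isInternal X) (p := fun a => W.act γ a = 0) ?_ ?_ a
    · intro l a ha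
      by_cases hl : l = b
      · subst hl; exact h0 a ha
      · rw [hdec, h.proj b l a ha, if_neg hl, map_zero, map_zero]
    · intro a a' h1 h2
      rw [map_add, h1, h2, add_zero]
  have hCK := h.transp.prod h
  have h1 := act_prodCK_block h h (a := b) (by omega) b γ
  rw [hfix, show 2 * X.dim - b + b = 2 * X.dim by omega] at h1
  have key : ∀ n, n ≤ X.dim → γ ∈ F (X.prod X) X.dim (n + 1) := by
    intro n
    induction n with
    | zero => exact fun _ => (hF.isFiltration.one hXX _ _).2 ⟨hγ, cl_eq_zero_of_act hact⟩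
    | succ n ih =>
      intro hn
      have h2 := hF.factors hXX hXX (c := (X.prod X).dim) (i := X.dim) (j := X.dim)
        (m := 2 * X.dim - (n + 1)) (ν := n + 1) (hCK.mem (2 * X.dim)) rfl (by omega)
        (fun a ha => by rw [hCK.proj _ _ a ha, if_neg (by omega)]) (ih (by omega))
      rwa [h1] at h2
  have h3 := key X.dim le_rfl
  rwa [hF.isFiltration.last hXX, Submodule.mem_bot] at h3

/-- **Theorem 4.** For a class of varieties which have Chow–Künneth decompositions and satisfy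
`IsLow`, a Bloch–Beilinson filtration exists if and only if the endomorphisms of
`h^d(X)`, `d = dim X`, act faithfully on `H^d(X)`. -/
theorem exists_blochBeilinson_iff (hP : C.Polarized) (hBS : BlochSrinivas C)
    (hF : HasDegenerating C) (hW : IsClosedClass P) (hA : ∀ X, P X → W.HasCK X)
    (hL : ∀ X, P X → IsLow W X) :
    (∃ F, IsBlochBeilinson W P F) ↔ ∀ X, P X → FaithfulMid W X := by
  constructor
  · rintro ⟨F, hF⟩ X hX
    exact (hF.faithfulEnd hW hX).mid
  · intro H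
    have h1 := (murre_iff hP hBS hF hW hL).2 H
    exact ⟨ckF W, isBlochBeilinson_ckF hW hA (fun X hX => (h1 X hX).1) (fun X hX => (h1 X hX).2.1)
      fun X hX => (h1 X hX).2.2⟩

end Pool.Agent.E870.P
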