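import Pool.Agent.E870.P.Peel

/-!
# The Chow–Künneth decomposition of a curve, and external products with classes of degree zero
-/

open CategoryTheory CategoryTheory.Limits AlgebraicGeometry
open Pool.Agent.H914 Pool.Agent.H914.VarClass Pool.Agent.H914.VarClass.Obj Pool.Agent.R903
open Pool.Agent.E870.Q

universe u v w

namespace Pool.Agent.E870.P

variable {k : Type u} [Field k] {𝒱 : VarClass k} {C : ChowTheory.{u, v} 𝒱}

variable {X Y Z E T : 𝒱.Obj}

lemma comp_ext_ext (a : C.CH X) (b c : C.CH Y) (d : C.CH Z) :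
    C.comp (C.ext a b) (C.ext c d) = C.deg Y (b * c) • C.ext a d := by
  have h1 : C.push (p13 X Y Z) (C.pull (snd X (Y.prod Z)) (C.pull (fst Y Z) (b * c))) =
      algebraMap ℚ _ (C.deg Y (b * c)) := by
    rw [← C.bc2, C.push_snd_pull_fst, AlgHom.commutes]
  have h2 : C.pull (p12 X Y Z) (C.ext a b) * C.pull (snd X (Y.prod Z)) (C.ext c d) =
      C.pull (p13 X Y Z) (C.ext a d) *
        C.pull (snd X (Y.prod Z)) (C.pull (fst Y Z) (b * c)) := by
    simp only [ChowTheory.ext, C.pull_mul, ← C.pull_comp, p12_fst, p12_snd, p13_fst, p13_snd]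
    ring
  rw [ChowTheory.comp, h2, C.mul_push, h1, mul_comm, ← Algebra.smul_def]

lemma act_tensor_ext (α : C.CH (X.prod X)) (β : C.CH (Y.prod Y)) (x : C.CH X) (y : C.CH Y) :
    C.act (C.tensor α β) (C.ext x y) = C.ext (C.act α x) (C.act β y) := by
  rw [C.tensor_eq, C.act_comp, C.act_opM_ext, C.act_opL_ext]

variable (W : WeilTheory.{u, v, w} C)

include W in
lemma deg_eq_zero {i : ℕ} {x : C.CH X} (hx : x ∈ C.gr X i) (hi : i ≠ X.dim) : C.deg X x = 0 := by
  have h := W.tr_cl x
  rw [W.tr_eq_zero (W.cl_mem hx) (by omega)] at h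
  exact_mod_cast h.symm

lemma wact_ext (y : C.CH X) {z : C.CH Y} {q : ℕ} (hz : z ∈ C.gr Y q) (a : W.H X) :
    W.act (C.ext y z) a = W.tr X (W.cl X y * a) • W.cl Y z := by
  rw [W.act_apply, ChowTheory.ext, W.cl_mul, W.cl_pull, W.cl_pull, mul_assoc,
    W.even_comm (W.map_mem _ (W.cl_mem hz)), ← mul_assoc, ← W.map_mul', W.push_snd]

/-- the Chow–Künneth decomposition of a curve given by a class `e` of degree one -/
noncomputable def curveCK (C : ChowTheory.{u, v} 𝒱) (E : 𝒱.Obj) (e : C.CH E) (j : ℕ) :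
    C.CH (E.prod E) :=
  if j = 0 then C.ext e 1 else if j = 1 then C.diagC E - C.ext e 1 - C.ext 1 e
  else if j = 2 then C.ext 1 e else 0

lemma gr_zero_eq {X : 𝒱.Obj} {a : W.H X} (ha : a ∈ W.gr X 0) : ∃ c : W.K, a = c • 1 := by
  rw [(W.isPoincareAlgebra X).gr_zero, Submodule.mem_span_singleton] at ha
  obtain ⟨c, hc⟩ := ha
  exact ⟨c, hc.symm⟩

variable {W}

lemma comp_sub' (α β : C.CH (X.prod Y)) (γ : C.CH (Y.prod Z)) :
    C.comp (α - β) γ = C.comp α γ - C.comp β γ := by
  rw [sub_eq_add_neg, C.add_comp, ← neg_one_smul ℚ, C.smul_comp, neg_one_smul, ← sub_eq_add_neg]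

lemma comp_sub'' (γ : C.CH (X.prod Y)) (α β : C.CH (Y.prod Z)) :
    C.comp γ (α - β) = C.comp γ α - C.comp γ β := by
  rw [sub_eq_add_neg, C.comp_add, ← neg_one_smul ℚ, C.comp_smul, neg_one_smul, ← sub_eq_add_neg]

theorem isCK_curve (hE : E.dim = 1) {e : C.CH E} (he : e ∈ C.gr E 1) (hd : C.deg E e = 1) :
    W.IsCK E (curveCK C E e) := by
  have hone := C.one_mem E
  have hee : e * e = 0 := by
    have := C.mul_mem he he
    rw [C.gr_eq_bot E _ (by omega), Submodule.mem_bot] at this
    exact this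
  have hd1 : C.deg E (1 : C.CH E) = 0 := deg_eq_zero W hone (by omega)
  have c00 : C.comp (C.ext e (1 : C.CH E)) (C.ext e (1 : C.CH E)) = C.ext e 1 := by
    rw [comp_ext_ext, one_mul, hd, one_smul]
  have c02 : C.comp (C.ext e (1 : C.CH E)) (C.ext (1 : C.CH E) e) = 0 := by
    rw [comp_ext_ext, one_mul, hd1, zero_smul]
  have c20 : C.comp (C.ext (1 : C.CH E) e) (C.ext e (1 : C.CH E)) = 0 := by
    rw [comp_ext_ext, hee, map_zero, zero_smul]
  have c22 : C.comp (C.ext (1 : C.CH E) e) (C.ext (1 : C.CH E) e) = C.ext 1 e := by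
    rw [comp_ext_ext, mul_one, hd, one_smul]
  have m0 : C.ext e (1 : C.CH E) ∈ C.gr (E.prod E) E.dim := by
    have := C.ext_mem (X := E) (Y := E) he hone
    rw [hE]; exact this
  have m2 : C.ext (1 : C.CH E) e ∈ C.gr (E.prod E) E.dim := by
    have := C.ext_mem (X := E) (Y := E) hone he
    rw [hE]; exact this
  have v0 : curveCK C E e 0 = C.ext e 1 := by simp [curveCK]
  have v1 : curveCK C E e 1 = C.diagC E - C.ext e 1 - C.ext 1 e := by simp [curveCK]
  have v2 : curveCK C E e 2 = C.ext 1 e := by simp [curveCK]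
  have v3 : ∀ j, 3 ≤ j → curveCK C E e j = 0 := by
    intro j hj
    rw [curveCK, if_neg (by omega), if_neg (by omega), if_neg (by omega)]
  have key : ∀ i j, C.comp (curveCK C E e i) (curveCK C E e j) =
      if i = j then curveCK C E e i else 0 := by
    intro i j
    rcases Nat.lt_or_ge i 3 with hi | hi
    · rcases Nat.lt_or_ge j 3 with hj | hj
      · interval_cases i <;> interval_cases j <;>
        simp [v0, v1, v2, comp_sub', comp_sub'', C.diagC_comp, C.comp_diagC, c00, c02, c20, c22]
      · rw [v3 j hj, C.comp_zero, if_neg (by omega)]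
    · rw [v3 i hi, C.zero_comp]
      simp
  have hcl : W.cl E e ∈ W.gr E 2 := W.cl_mem he
  have htr : W.tr E (W.cl E e) = 1 := by rw [W.tr_cl, hd]; simp
  have a0 : ∀ l, ∀ a ∈ W.gr E l, W.act (C.ext e (1 : C.CH E)) a = if l = 0 then a else 0 := by
    intro l a ha
    rw [wact_ext W e hone, map_one]
    split_ifs with hl
    · subst hl
      obtain ⟨c, rfl⟩ := gr_zero_eq W ha
      rw [mul_smul_comm, mul_one, map_smul, htr, smul_eq_mul, mul_one]
    · rw [W.tr_eq_zero (W.mul_mem hcl ha) (by omega), zero_smul]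
  have a2 : ∀ l, ∀ a ∈ W.gr E l, W.act (C.ext (1 : C.CH E) e) a = if l = 2 then a else 0 := by
    intro l a ha
    rw [wact_ext W 1 he, map_one, one_mul]
    split_ifs with hl
    · subst hl
      apply W.tr_ext
      intro b
      refine gr_induction (W.isInternal E) (p := fun b =>
        W.tr E (W.tr E a • W.cl E e * b) = W.tr E (a * b)) ?_ ?_ b
      · intro l b hb
        by_cases hl : l = 0
        · subst hl
          obtain ⟨c, rfl⟩ := gr_zero_eq W hb
          rw [mul_smul_comm, mul_smul_comm, mul_one, mul_one, map_smul, map_smul, map_smul, htr,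
            smul_eq_mul, smul_eq_mul, smul_eq_mul, mul_one]
        · rw [smul_mul_assoc, map_smul, W.tr_eq_zero (W.mul_mem hcl hb) (by omega),
            W.tr_eq_zero (W.mul_mem ha hb) (by omega), smul_zero]
      · intro b b' h h'
        rw [mul_add, map_add, h, h', mul_add, map_add]
    · rw [W.tr_eq_zero ha (by omega), zero_smul]
  refine ⟨fun j => ?_, fun j => ?_, fun i j hij => ?_, ?_, fun j => ?_⟩
  · rcases Nat.lt_or_ge j 3 with hj | hj
    · interval_cases j
      · rw [v0]; exact m0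
      · rw [v1]; exact Submodule.sub_mem _ (Submodule.sub_mem _ (C.diagC_mem E) m0) m2
      · rw [v2]; exact m2
    · rw [v3 j hj]; exact Submodule.zero_mem _
  · rw [key, if_pos rfl]
  · rw [key, if_neg hij]
  · rw [hE, Finset.sum_range_succ, Finset.sum_range_succ, Finset.sum_range_one, v0, v1, v2]
    abel
  · intro l a ha
    rcases Nat.lt_or_ge j 3 with hj | hj
    · interval_cases j
      · rw [v0, a0 l a ha]
      · rw [v1, W.act_sub, W.act_sub, LinearMap.sub_apply, LinearMap.sub_apply, W.act_diagC,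
          a0 l a ha, a2 l a ha]
        by_cases h0 : l = 0
        · subst h0; simp
        by_cases h1 : l = 1
        · subst h1; simp
        by_cases h2 : l = 2
        · subst h2; simp
        · rw [W.gr_eq_bot E l (by omega), Submodule.mem_bot] at ha
          rw [ha]; simp
      · rw [v2, a2 l a ha]
    · rw [v3 j hj, W.act_zero, LinearMap.zero_apply]
      by_cases h : l = j
      · subst h
        rw [W.gr_eq_bot E l (by omega), Submodule.mem_bot] at ha
        rw [ha]; simp
      · rw [if_neg h]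

/-- a class of degree zero on a curve is fixed by `π 1` -/
lemma act_curveCK_one (hE : E.dim = 1) {e : C.CH E} (he : e ∈ C.gr E 1) {z : C.CH E}
    (hz : z ∈ C.gr E 1) (hd : C.deg E z = 0) : C.act (curveCK C E e 1) z = z := by
  have hez : z * e = 0 := by
    have := C.mul_mem hz he
    rw [C.gr_eq_bot E _ (by omega), Submodule.mem_bot] at this
    exact this
  have v1 : curveCK C E e 1 = C.diagC E - C.ext e 1 - C.ext 1 e := by simp [curveCK]
  rw [v1, C.act_sub, C.act_sub, LinearMap.sub_apply, LinearMap.sub_apply, C.act_diagC, C.act_ext,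
    C.act_ext, hez, mul_one, hd, map_zero, zero_smul, zero_smul, sub_zero, sub_zero]

/-- a class of degree zero on a curve is homologically trivial -/
lemma cl_eq_zero_of_deg (hE : E.dim = 1) {z : C.CH E} (hz : z ∈ C.gr E 1) (hd : C.deg E z = 0) :
    W.cl E z = 0 := by
  apply W.nondeg
  intro b
  refine gr_induction (W.isInternal E) (p := fun b => W.tr E (W.cl E z * b) = 0) ?_ ?_ b
  · intro l b hb
    by_cases hl : l = 0
    · subst hl
      obtain ⟨c, rfl⟩ := gr_zero_eq W hb
      rw [mul_smul_comm, mul_one, map_smul, W.tr_cl, hd]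
      simp
    · exact W.tr_eq_zero (W.mul_mem (W.cl_mem hz) hb) (by omega)
  · intro b b' h h'
    rw [mul_add, map_add, h, h', add_zero]

/-- the class `1` on a curve is fixed by `π 0` -/
lemma act_curveCK_zero {e : C.CH E} (hd : C.deg E e = 1) :
    C.act (curveCK C E e 0) (1 : C.CH E) = 1 := by
  have v0 : curveCK C E e 0 = C.ext e 1 := by simp [curveCK]
  rw [v0, C.act_ext, one_mul, hd, one_smul]

/-- the class `e` on a curve is fixed by `π 2` -/
lemma act_curveCK_two {e : C.CH E} (hd : C.deg E e = 1) :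
    C.act (curveCK C E e 2) e = e := by
  have v2 : curveCK C E e 2 = C.ext 1 e := by simp [curveCK]
  rw [v2, C.act_ext, mul_one, hd, one_smul]

open WeilTheory in
/-- If `x` lies in `CH(h^b(X))` and `z` in `CH(h^c(Y))`, then `x × z` lies in
`CH(h^(b+c)(X × Y))`. -/
lemma act_prodCK_ext_gen {π : ℕ → C.CH (X.prod X)} {ρ : ℕ → C.CH (Y.prod Y)} (h : W.IsCK X π)
    (h' : W.IsCK Y ρ) {b c : ℕ} {x : C.CH X} {z : C.CH Y} (hx : C.act (π b) x = x)
    (hz : C.act (ρ c) z = z) :
    C.act (prodCK C π ρ (b + c)) (C.ext x z) = C.ext x z := by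
  rw [prodCK, act_sum_apply]
  rw [Finset.sum_eq_single (b, c)]
  · rw [act_tensor_ext, hx, hz]
  · rintro ⟨p, q⟩ hpq hne
    rw [act_tensor_ext]
    by_cases hp : p = b
    · have hq : q ≠ c := by
        rintro rfl
        exact hne (by rw [hp])
      have : C.act (ρ q) z = 0 := by
        rw [← hz, h'.act_act, if_neg hq]
      rw [this, ext_zero]
    · have : C.act (π p) x = 0 := by
        rw [← hx, h.act_act, if_neg hp]
      rw [this, zero_ext]
  · intro hnot
    exact (hnot (Finset.HasAntidiagonal.mem_antidiagonal.2 rfl)).elim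

lemma eq_zero_of_ext_e {e : C.CH E} (hd : C.deg E e = 1) {x : C.CH X} (h : C.ext x e = 0) :
    x = 0 := by
  have h1 := congrArg (C.push (fst X E)) h
  rw [map_zero, ChowTheory.ext, C.mul_push, push_fst_pull_snd, hd, map_one, mul_one] at h1
  exact h1

lemma eq_zero_of_ext_one {e : C.CH E} (hd : C.deg E e = 1) {x : C.CH X}
    (h : C.ext x (1 : C.CH E) = 0) : x = 0 := by
  refine eq_zero_of_ext_e hd ?_
  have h1 : C.ext x e = C.ext x (1 : C.CH E) * C.pull (snd X E) e := by
    simp [ChowTheory.ext]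
  rw [h1, h, zero_mul]

open WeilTheory in
/-- If `x` lies in `CH^i(h^b(X))` and `z` has degree `0` on the curve `E`, then `x × z` lies in
`CH^(i+1)(h^(b+1)(X × E))`. -/
lemma act_prodCK_ext {π : ℕ → C.CH (X.prod X)} (h : W.IsCK X π) (hE : E.dim = 1) {e : C.CH E}
    (he : e ∈ C.gr E 1) (hd : C.deg E e = 1) {b : ℕ} {x : C.CH X} (hx : C.act (π b) x = x)
    {z : C.CH E} (hz : z ∈ C.gr E 1) (hdz : C.deg E z = 0) :
    C.act (prodCK C π (curveCK C E e) (b + 1)) (C.ext x z) = C.ext x z := by
  have hE' : W.IsCK E (curveCK C E e) := isCK_curve hE he hd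
  have hz1 := act_curveCK_one hE he hz hdz
  rw [prodCK, act_sum_apply]
  rw [Finset.sum_eq_single (b, 1)]
  · rw [act_tensor_ext, hx, hz1]
  · rintro ⟨p, q⟩ hpq hne
    rw [act_tensor_ext]
    by_cases hp : p = b
    · have hq : q ≠ 1 := by
        rintro rfl
        exact hne (by rw [hp])
      have : C.act (curveCK C E e q) z = 0 := by
        rw [← hz1, hE'.act_act, if_neg hq]
      rw [this, ext_zero]
    · have : C.act (π p) x = 0 := by
        rw [← hx, h.act_act, if_neg hp]
      rw [this, zero_ext]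
  · intro hnot
    exact (hnot (Finset.HasAntidiagonal.mem_antidiagonal.2 rfl)).elim

end Pool.Agent.E870.P
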