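import Pool.Agent.E870.Q.Defs2

/-!
# The decomposition principle and degenerating families (forms used in the proofs)
-/

open CategoryTheory CategoryTheory.Limits AlgebraicGeometry
open Pool.Agent.H914 Pool.Agent.H914.VarClass Pool.Agent.H914.VarClass.Obj Pool.Agent.R903
open Pool.Agent.E870.Q

universe u v w

namespace Pool.Agent.E870.P

variable {k : Type u} [Field k] {𝒱 : VarClass k}

/-- The span in `CH(Y × V)` of the classes which come from `Y × W` for morphisms `w : W ⟶ V` such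
that `W ⟶ V ⟶ S` factors through a variety `T` with `dim T < dim S`. -/
noncomputable def overSmaller (C : ChowTheory.{u, v} 𝒱) {V S : 𝒱.Obj} (f : Mor V S) (Y : 𝒱.Obj) :
    Submodule ℚ (C.CH (Y.prod V)) :=
  Submodule.span ℚ {γ | ∃ (W : 𝒱.Obj) (w : Mor W V), IsOverSmaller f w ∧
    ∃ Z : C.CH (Y.prod W), C.push (times Y w) Z = γ}

/-- the decomposition principle -/
def BlochSrinivas (C : ChowTheory.{u, v} 𝒱) : Prop :=
  ∀ {V S : 𝒱.Obj} (f : Mor V S), HasGeneralFibres f → ∀ (Y : 𝒱.Obj) (Γ : C.CH (Y.prod V)),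
    (∀ (E : 𝒱.Obj) (i : Mor E V), IsFibre i f → C.pull (times Y i) Γ = 0) →
      Γ ∈ overSmaller C f Y

/-- degenerating families of curves -/
structure IsDegenerating (C : ChowTheory.{u, v} 𝒱) {V S : 𝒱.Obj} (f : Mor V S) (θ τ : C.CH V) :
    Prop where
  general : HasGeneralFibres f
  mem : θ ∈ C.gr V 1
  fibre : ∀ (E : 𝒱.Obj) (i : Mor E V), IsFibre i f → E.dim = 1 ∧ C.deg E (C.pull i θ) = 0
  small : ∀ (W : 𝒱.Obj) (w : Mor W V), IsOverSmaller f w → C.pull w τ = 0
  deg_ne : C.deg V (θ * τ) ≠ 0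

/-- There is a degenerating family of curves in the class `𝒱`. -/
def HasDegenerating (C : ChowTheory.{u, v} 𝒱) : Prop :=
  ∃ (V S : 𝒱.Obj) (f : Mor V S) (θ τ : C.CH V), IsDegenerating C f θ τ

lemma polarized_of {C : ChowTheory.{u, v} 𝒱} (h : HasPolarizations C.toChowData) : C.Polarized := h

lemma blochSrinivas_of {C : ChowTheory.{u, v} 𝒱} (h : Q.BlochSrinivas C.toChowData) :
    BlochSrinivas C :=
  fun f hf Y Γ hΓ => h f hf Y Γ hΓ

lemma hasDegenerating_of {C : ChowTheory.{u, v} 𝒱} (h : Q.HasDegenerating C.toChowData) :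
    HasDegenerating C := by
  obtain ⟨V, S, f, θ, τ, h1, h2, h3, h4, h5, h6⟩ := h
  exact ⟨V, S, f, θ, τ, h1, h2, fun E i hi => ⟨h3 E i hi, h4 E i hi⟩, h5, h6⟩

end Pool.Agent.E870.P
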