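import Pool.Agent.E870.P.Defs

/-!
# Forms of Murre's conjectures used in the proofs
-/

open CategoryTheory CategoryTheory.Limits AlgebraicGeometry
open Pool.Agent.H914 Pool.Agent.H914.VarClass Pool.Agent.H914.VarClass.Obj Pool.Agent.R903
open Pool.Agent.E870.Q

universe u v w

namespace Pool.Agent.E870.P

variable {k : Type u} [Field k] {𝒱 : VarClass k} {C : ChowTheory.{u, v} 𝒱}

def MurreD (W : WeilTheory.{u, v, w} C) (X : 𝒱.Obj) : Prop :=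
  ∀ π : ℕ → C.CH (X.prod X), W.IsCK X π → ∀ (i : ℕ) (x : C.CH X),
    x ∈ C.ckFil π i 1 ↔ x ∈ C.gr X i ∧ W.cl X x = 0

def MurreD0Mid (W : WeilTheory.{u, v, w} C) (X : 𝒱.Obj) : Prop :=
  ∀ π : ℕ → C.CH (X.prod X), W.IsCK X π → ∀ (i : ℕ), X.dim = 2 * i → ∀ x ∈ C.gr X i,
    C.act (π (2 * i)) x = x → W.cl X x = 0 → x = 0

/-- The correspondence `γ` acts as zero on `H^b(X)`. -/
def ZeroOn (W : WeilTheory.{u, v, w} C) {X Y : 𝒱.Obj} (b : ℕ) (γ : C.CH (X.prod Y)) : Prop :=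
  ∀ a ∈ W.gr X b, W.act γ a = 0

def FaithfulMid (W : WeilTheory.{u, v, w} C) (X : 𝒱.Obj) : Prop :=
  ∀ π : ℕ → C.CH (X.prod X), W.IsCK X π → ∀ γ ∈ C.gr (X.prod X) X.dim,
    C.comp (C.comp (π X.dim) γ) (π X.dim) = γ → ZeroOn W X.dim γ → γ = 0

def NoExcessMid (W : WeilTheory.{u, v, w} C) (X : 𝒱.Obj) : Prop :=
  ∀ π : ℕ → C.CH (X.prod X), W.IsCK X π → ∀ (i : ℕ), X.dim = 2 * i + 1 → ∀ x ∈ C.gr X i,
    C.act (π (2 * i + 1)) x = 0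

def NoHomMid (W : WeilTheory.{u, v, w} C) (X : 𝒱.Obj) : Prop :=
  ∀ π : ℕ → C.CH (X.prod X), W.IsCK X π → ∀ γ ∈ C.gr (X.prod X) X.dim,
    C.comp (C.comp (π X.dim) γ) (π (X.dim + 1)) = 0

def FactorsLow (C : ChowTheory.{u, v} 𝒱) {X : 𝒱.Obj} (j : ℕ) (γ : C.CH (X.prod X)) : Prop :=
  ∃ (Z : 𝒱.Obj) (a b : ℕ), a + b = Z.dim + X.dim ∧ Z.dim + X.dim ≤ j + a ∧
    ∃ α ∈ C.gr (X.prod Z) a, ∃ β ∈ C.gr (Z.prod X) b, C.comp α β = γ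

def IsLow (W : WeilTheory.{u, v, w} C) (X : 𝒱.Obj) : Prop :=
  ∀ j : ℕ, ∃ ε ∈ Submodule.span ℚ {γ : C.CH (X.prod X) | FactorsLow C j γ},
    ∀ a ∈ W.gr X j, W.act ε a = a

def LowClass (W : WeilTheory.{u, v, w} C) (X : 𝒱.Obj) : Prop :=
  W.HasCK X ∧ IsLow W X

variable {W : WeilTheory.{u, v, w} C} {X : 𝒱.Obj}

lemma murreD_iff : Q.MurreD W X ↔ MurreD W X := Iff.rfl

lemma murreD0Mid_iff : Q.MurreD0Mid W X ↔ MurreD0Mid W X :=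
  ⟨fun h π hπ i hi x hx => h π hπ i x hi hx, fun h π hπ i x hi hx => h π hπ i hi x hx⟩

lemma faithfulMid_iff : Q.FaithfulMid W X ↔ FaithfulMid W X := Iff.rfl

lemma noExcessMid_iff : Q.NoExcessMid W X ↔ NoExcessMid W X :=
  ⟨fun h π hπ i hi x hx => h π hπ i x hi hx, fun h π hπ i x hi hx => h π hπ i hi x hx⟩

lemma noHomMid_iff : Q.NoHomMid W X ↔ NoHomMid W X := Iff.rfl

lemma factorsLow_iff {j : ℕ} {γ : C.CH (X.prod X)} : Q.FactorsLow C j γ ↔ FactorsLow C j γ := by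
  constructor
  · rintro ⟨Z, a, b, h1, h2, α, β, h3, h4, h5⟩
    exact ⟨Z, a, b, h1, h2, α, h3, β, h4, h5⟩
  · rintro ⟨Z, a, b, h1, h2, α, h3, β, h4, h5⟩
    exact ⟨Z, a, b, h1, h2, α, β, h3, h4, h5⟩

lemma isLow_iff : Q.IsLow W X ↔ IsLow W X := by
  have e : ∀ j : ℕ, {γ : C.CH (X.prod X) | Q.FactorsLow C j γ} = {γ | FactorsLow C j γ} :=
    fun j => Set.ext fun γ => factorsLow_iff
  constructor
  · intro h j
    obtain ⟨ε, h1, h2⟩ := h j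
    refine ⟨ε, ?_, h2⟩
    rw [← e]
    exact h1
  · intro h j
    obtain ⟨ε, h1, h2⟩ := h j
    refine ⟨ε, ?_, h2⟩
    rw [← e] at h1
    exact h1

lemma lowClass_iff : Q.LowClass W X ↔ LowClass W X := and_congr Iff.rfl isLow_iff

end Pool.Agent.E870.P
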