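import Pool.Agent.E870.P.Defs2

/-!
# Forms of Murre's conjectures used in the proofs only
-/

open CategoryTheory CategoryTheory.Limits AlgebraicGeometry
open Pool.Agent.H914 Pool.Agent.H914.VarClass Pool.Agent.H914.VarClass.Obj Pool.Agent.R903
open Pool.Agent.E870.Q

universe u v w

namespace Pool.Agent.E870.P

variable {k : Type u} [Field k] {𝒱 : VarClass k} {C : ChowTheory.{u, v} 𝒱}

/-- The part of weight zero of Murre's conjecture (D) for `X`: for each Chow–Künneth decomposition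
of `X` and each `i`, the only homologically trivial class in `CH^i(h^(2i)(X))`, that is, in
`CH^i(X)` and fixed by the projector `π (2i)`, is `0`. -/
def MurreD0 (W : WeilTheory.{u, v, w} C) (X : 𝒱.Obj) : Prop :=
  ∀ π : ℕ → C.CH (X.prod X), W.IsCK X π → ∀ (i : ℕ), ∀ x ∈ C.gr X i,
    C.act (π (2 * i)) x = x → W.cl X x = 0 → x = 0

/-- For each Chow–Künneth decomposition of `X` and each `b` the endomorphism ring
`π b ∘ CH^(dim X)(X × X) ∘ π b` of the motive `h^b(X)` acts faithfully on `H^b(X)`. -/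
def FaithfulEnd (W : WeilTheory.{u, v, w} C) (X : 𝒱.Obj) : Prop :=
  ∀ π : ℕ → C.CH (X.prod X), W.IsCK X π → ∀ (b : ℕ), ∀ γ ∈ C.gr (X.prod X) X.dim,
    C.comp (C.comp (π b) γ) (π b) = γ → (∀ a ∈ W.gr X b, W.act γ a = 0) → γ = 0

/-- For each Chow–Künneth decomposition of `X` and each `i` one has `CH^i(h^(2i+1)(X)) = 0`. -/
def NoExcessOne (W : WeilTheory.{u, v, w} C) (X : 𝒱.Obj) : Prop :=
  ∀ π : ℕ → C.CH (X.prod X), W.IsCK X π → ∀ (i : ℕ), ∀ x ∈ C.gr X i,
    C.act (π (2 * i + 1)) x = 0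

/-- For each Chow–Künneth decomposition of `X` and each `b` there is no nonzero morphism from the
motive `h^b(X)` to the motive `h^(b+1)(X)`: one has `π (b+1) ∘ γ ∘ π b = 0` for all `γ` in
`CH^(dim X)(X × X)`. -/
def NoHomOne (W : WeilTheory.{u, v, w} C) (X : 𝒱.Obj) : Prop :=
  ∀ π : ℕ → C.CH (X.prod X), W.IsCK X π → ∀ (b : ℕ), ∀ γ ∈ C.gr (X.prod X) X.dim,
    C.comp (C.comp (π b) γ) (π (b + 1)) = 0

/-- The Lefschetz standard conjecture for `X`: for some divisor class `D` and all `j ≤ dim X` a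
left inverse of the operator `D^(dim X - j)` from `H^j(X)` to `H^(2 dim X - j)(X)` is given by a
correspondence. -/
def LefschetzStd (W : WeilTheory.{u, v, w} C) (X : 𝒱.Obj) : Prop :=
  ∃ D ∈ C.gr X 1, ∀ j ≤ X.dim, ∃ Λ ∈ C.gr (X.prod X) j,
    ∀ a ∈ W.gr X j, W.act Λ (W.cl X (D ^ (X.dim - j)) * a) = a

/-- the span of the correspondences as in `FactorsLow C j` -/
noncomputable abbrev factorsLow (C : ChowTheory.{u, v} 𝒱) (X : 𝒱.Obj) (j : ℕ) :
    Submodule ℚ (C.CH (X.prod X)) :=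
  Submodule.span ℚ {γ : C.CH (X.prod X) | FactorsLow C j γ}

end Pool.Agent.E870.P
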