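import Pool.Agent.E870.P.Main

/-!
# The equivalences, in the form in which they are stated
-/

open Pool.Agent.H914 Pool.Agent.R903

universe u v w

namespace Pool.Agent.E870.P

variable {k : Type u} [Field k] {𝒱 : VarClass k} {C : ChowTheory.{u, v} 𝒱}
variable {W : WeilTheory.{u, v, w} C} {P : 𝒱.Obj → Prop}

theorem q_tfae_D (hC : Q.IsGeometric C.toChowData) (hP : Q.IsClosedClass P) :
    List.TFAE [∀ X, P X → Q.MurreD W X, ∀ X, P X → Q.MurreD0Mid W X,
      ∀ X, P X → Q.FaithfulMid W X] := by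
  simp only [murreD0Mid_iff]
  exact tfae_D (polarized_of hC.1) (blochSrinivas_of hC.2) (hasDegenerating_of hC.3) hP

theorem q_noExcess (hC : Q.IsGeometric C.toChowData) (hP : Q.IsClosedClass P) :
    (∀ X, P X → ∀ i : ℕ, W.MurreB0 X i) ↔ ∀ X, P X → Q.NoExcessMid W X := by
  simp only [noExcessMid_iff]
  exact (tfae_B (polarized_of hC.1) (blochSrinivas_of hC.2) (hasDegenerating_of hC.3) hP).out 0 2

theorem q_noHom (hC : Q.IsGeometric C.toChowData) (hP : Q.IsClosedClass P) :
    (∀ X, P X → W.MurreC X) ↔ ∀ X, P X → Q.NoHomMid W X :=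
  (tfae_B (polarized_of hC.1) (blochSrinivas_of hC.2) (hasDegenerating_of hC.3) hP).out 1 3

end Pool.Agent.E870.P
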