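import Pool.Agent.E870.P.AJ
import Pool.Agent.E870.Q.Lef

/-!
# Bloch–Beilinson filtrations under the Lefschetz standard conjecture, in the form in which the
results are stated
-/

open Pool.Agent.H914 Pool.Agent.R903

universe u v w

namespace Pool.Agent.E870.P

variable {k : Type u} [Field k] {𝒱 : VarClass k} {C : ChowTheory.{u, v} 𝒱}
variable {W : WeilTheory.{u, v, w} C} {P : 𝒱.Obj → Prop}

lemma lefschetzStd_of {X : 𝒱.Obj} (hL : Q.LefschetzStd W X) : LefschetzStd W X := by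
  obtain ⟨D, hD, h⟩ := hL
  refine ⟨D, hD, fun j hj => ?_⟩
  obtain ⟨Λ, h1, h2⟩ := h j hj
  exact ⟨Λ, h1, h2⟩

theorem q_exists_iff_of_lefschetz (hC : Q.IsGeometric C.toChowData) (hP : Q.IsClosedClass P)
    (hL : ∀ X, P X → Q.LefschetzStd W X) :
    (∃ F, Q.IsBlochBeilinson W P F) ↔
      ∀ X, P X → Q.HasDecomposition W X ∧ Q.FaithfulMid W X := by
  simp only [isBlochBeilinson_iff]
  exact exists_blochBeilinson_iff_of_lefschetz (polarized_of hC.1) (blochSrinivas_of hC.2)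
    (hasDegenerating_of hC.3) hP fun X hX => lefschetzStd_of (hL X hX)

theorem q_existsAJ_iff (hC : Q.IsGeometric C.toChowData)
    {K : ∀ X : 𝒱.Obj, ℕ → Submodule ℚ (C.CH X)} (hK : Q.IsAbelJacobiKernel W K)
    (hP : Q.IsClosedClass P) (hL : ∀ X, P X → Q.LefschetzStd W X) :
    (∃ F, Q.IsBlochBeilinsonAJ W K P F) ↔
      ∀ X, P X → Q.HasDecomposition W X ∧ Q.FaithfulMid W X ∧ Q.AbelJacobiInjMid W K X :=
  exists_blochBeilinsonAJ_iff (polarized_of hC.1) (blochSrinivas_of hC.2)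
    (hasDegenerating_of hC.3) hK hP fun X hX => lefschetzStd_of (hL X hX)

end Pool.Agent.E870.P
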