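import Pool.Agent.E870.P.BB

/-!
# Künneth projectors and Chow–Künneth decompositions from a Bloch–Beilinson filtration
-/

open CategoryTheory CategoryTheory.Limits AlgebraicGeometry
open Pool.Agent.H914 Pool.Agent.H914.VarClass Pool.Agent.H914.VarClass.Obj Pool.Agent.R903
open Pool.Agent.E870.Q
open Pool.Agent.R903.WeilTheory

universe u v w

namespace Pool.Agent.E870.P

variable {k : Type u} [Field k] {𝒱 : VarClass k} {C : ChowTheory.{u, v} 𝒱}
variable {W : WeilTheory.{u, v, w} C} {X Y Z E : 𝒱.Obj} {P : 𝒱.Obj → Prop}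

/-- `τ` acts on cohomology as the truncation to the degrees below `n`. -/
def IsTrunc (W : WeilTheory.{u, v, w} C) (X : 𝒱.Obj) (n : ℕ) (τ : C.CH (X.prod X)) : Prop :=
  τ ∈ C.gr (X.prod X) X.dim ∧
    ∀ m, ∀ a ∈ W.gr X m, W.act τ a = (if m < n then (1 : W.K) else 0) • a

lemma exists_trunc (hL : LefschetzStd W X) (n : ℕ) (hn : n ≤ X.dim + 1) :
    ∃ τ, IsTrunc W X n τ := by
  obtain ⟨D, hD, hΛ⟩ := hL
  induction n with
  | zero =>
    refine ⟨0, Submodule.zero_mem _, fun m a _ => ?_⟩
    rw [W.act_zero]
    simp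
  | succ n ih =>
    obtain ⟨τ, hτ, hτa⟩ := ih (by omega)
    obtain ⟨Λ, hΛm, hΛa⟩ := hΛ n (by omega)
    have hA : C.diagC X - τ ∈ C.gr (X.prod X) X.dim := Submodule.sub_mem _ (C.diagC_mem X) hτ
    have hB : C.diagC X - C.transp τ ∈ C.gr (X.prod X) X.dim :=
      Submodule.sub_mem _ (C.diagC_mem X) (C.transp_mem hτ)
    have hM : mulC C (D ^ (X.dim - n)) ∈ C.gr (X.prod X) (X.dim + (X.dim - n)) :=
      mulC_mem (pow_mem_gr hD _)
    have h1 : C.comp (C.diagC X - τ) (mulC C (D ^ (X.dim - n))) ∈
        C.gr (X.prod X) (X.dim + (X.dim - n)) := C.comp_mem hA hM (by omega)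
    have h2 : C.comp (C.comp (C.diagC X - τ) (mulC C (D ^ (X.dim - n)))) (C.diagC X - C.transp τ) ∈
        C.gr (X.prod X) (X.dim + (X.dim - n)) := C.comp_mem h1 hB (by omega)
    have h3 : C.comp (C.comp (C.comp (C.diagC X - τ) (mulC C (D ^ (X.dim - n))))
        (C.diagC X - C.transp τ)) Λ ∈ C.gr (X.prod X) X.dim := C.comp_mem h2 hΛm (by omega)
    refine ⟨τ + C.comp (C.comp (C.comp (C.diagC X - τ) (mulC C (D ^ (X.dim - n))))
        (C.diagC X - C.transp τ)) Λ, Submodule.add_mem _ hτ h3, fun m a ha => ?_⟩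
    rw [W.act_add, LinearMap.add_apply, W.act_comp _ hΛm, W.act_comp _ hB, W.act_comp _ hM]
    have e1 : W.act (C.diagC X - τ) a = a - (if m < n then (1 : W.K) else 0) • a := by
      rw [W.act_sub, LinearMap.sub_apply, W.act_diagC, hτa m a ha]
    rw [e1, hτa m a ha]
    by_cases hmn : m < n
    · rw [if_pos hmn, if_pos (by omega), one_smul, sub_self, map_zero, map_zero, map_zero, add_zero]
    · rw [if_neg hmn, zero_smul, sub_zero, zero_add, wact_mulC]
      have hb : W.cl X (D ^ (X.dim - n)) * a ∈ W.gr X (2 * (X.dim - n) + m) :=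
        W.mul_mem (W.cl_mem (pow_mem_gr hD _)) ha
      have e2 : W.act (C.diagC X - C.transp τ) (W.cl X (D ^ (X.dim - n)) * a) =
          W.cl X (D ^ (X.dim - n)) * a -
            (if 2 * X.dim - (2 * (X.dim - n) + m) < n then (1 : W.K) else 0) •
              (W.cl X (D ^ (X.dim - n)) * a) := by
        rw [W.act_sub, LinearMap.sub_apply, W.act_diagC, W.act_transp,
          coact_scal W hτ (fun m => if m < n then (1 : W.K) else 0) hτa hb]
      by_cases hlt : m < n + 1
      · have hm : m = n := by omega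
        subst hm
        rw [if_pos hlt, one_smul, e2, if_neg (by omega), zero_smul, sub_zero, hΛa a ha]
      · rw [if_neg hlt, zero_smul]
        by_cases hbig : 2 * X.dim < 2 * (X.dim - n) + m
        · rw [W.gr_eq_bot X _ hbig, Submodule.mem_bot] at hb
          rw [hb, map_zero, map_zero]
        · rw [e2, if_pos (by omega), one_smul, sub_self, map_zero]

lemma exists_trunc' (hL : LefschetzStd W X) (n : ℕ) : ∃ τ, IsTrunc W X n τ := by
  by_cases hn : n ≤ X.dim + 1
  · exact exists_trunc hL n hn
  obtain ⟨τ, hτ, hτa⟩ := exists_trunc hL (2 * X.dim + 1 - n) (by omega)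
  refine ⟨C.diagC X - C.transp τ, Submodule.sub_mem _ (C.diagC_mem X) (C.transp_mem hτ),
    fun m a ha => ?_⟩
  by_cases hm : 2 * X.dim < m
  · rw [W.gr_eq_bot X _ hm, Submodule.mem_bot] at ha
    rw [ha, map_zero, smul_zero]
  rw [W.act_sub, LinearMap.sub_apply, W.act_diagC, W.act_transp,
    coact_scal W hτ (fun m => if m < 2 * X.dim + 1 - n then (1 : W.K) else 0) hτa ha]
  by_cases h : m < n
  · rw [if_pos h, if_neg (by omega), zero_smul, one_smul, sub_zero]
  · rw [if_neg h, if_pos (by omega), zero_smul, one_smul, sub_self]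

/-- The Lefschetz standard conjecture gives the Künneth projectors. -/
theorem exists_kunnethProjectors (hL : LefschetzStd W X) : ∃ p : ℕ → C.CH (X.prod X),
    (∀ j, p j ∈ C.gr (X.prod X) X.dim) ∧ ∀ j, IsProjector (W.gr X) j (W.act (p j)) := by
  choose τ hτ hτa using fun n => exists_trunc' hL n
  refine ⟨fun j => τ (j + 1) - τ j, fun j => Submodule.sub_mem _ (hτ _) (hτ _), ?_⟩
  intro j m a ha
  show W.act (τ (j + 1) - τ j) a = _
  rw [W.act_sub, LinearMap.sub_apply, hτa _ m a ha, hτa _ m a ha]
  by_cases h1 : m < j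
  · rw [if_pos (by omega), if_pos h1, if_neg (by omega), sub_self]
  · by_cases h2 : m = j
    · rw [if_pos (by omega), if_neg h1, if_pos h2, one_smul, zero_smul, sub_zero]
    · rw [if_neg (by omega), if_neg h1, if_neg h2, sub_self]

/-- the ring of correspondences of degree zero -/
noncomputable def degZero (C : ChowTheory.{u, v} 𝒱) (X : 𝒱.Obj) : Subring (CorrRing C X) where
  carrier := {γ | (CorrRing.of C X).symm γ ∈ C.gr (X.prod X) X.dim}
  mul_mem' {_ _} ha hb := C.comp_mem (X := X) (Y := X) (Z := X) hb ha rfl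
  one_mem' := C.diagC_mem X
  add_mem' ha hb := Submodule.add_mem _ ha hb
  zero_mem' := Submodule.zero_mem _
  neg_mem' ha := Submodule.neg_mem _ ha

/-- its action on cohomology -/
noncomputable def cohRep (W : WeilTheory.{u, v, w} C) (X : 𝒱.Obj) :
    degZero C X →+* Module.End W.K (W.H X) where
  toFun γ := W.act ((CorrRing.of C X).symm γ.1)
  map_one' := by ext a; exact W.act_diagC a
  map_mul' a b := by
    ext x
    exact W.act_comp (X := X) (Y := X) (Z := X) ((CorrRing.of C X).symm b.1) a.2 x
  map_zero' := W.act_zero (X := X) (Y := X)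
  map_add' a b := W.act_add (X := X) (Y := X) ((CorrRing.of C X).symm a.1)
    ((CorrRing.of C X).symm b.1)

lemma act_opL_eq_zero {w : C.CH (X.prod X)} (hw : w ∈ C.gr (X.prod X) X.dim)
    (h0 : ∀ a, W.act w a = 0) (c : W.H (X.prod X)) : W.act (C.opL X w) c = 0 := by
  refine W.kunneth_induction (p := fun c => W.act (C.opL X w) c = 0) ?_ ?_ c
  · intro a b ha hb
    rw [map_add, ha, hb, add_zero]
  · intro i j a ha b hb
    rw [W.act_opL hw ha, h0, map_zero, mul_zero]

/-- A Bloch–Beilinson filtration forces the endomorphisms of `h^b(X)` to act faithfully. -/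
theorem faithfulEnd_of (hW : IsClosedClass P)
    {F : ∀ X : 𝒱.Obj, ℕ → ℕ → Submodule ℚ (C.CH X)} (hF : IsFiltration W P F)
    (hF' : FactorsThroughCoh W P F) (hX : P X) : FaithfulEnd W X := by
  intro π h b γ hγ hfix h0
  by_cases hb : 2 * X.dim < b
  · rw [← hfix, h.eq_zero hb, C.comp_zero]
  have hXX := hW.prod_mem hX hX
  have hact : ∀ a, W.act γ a = 0 := by
    have hdec : ∀ a, W.act γ a = W.act (π b) (W.act γ (W.act (π b) a)) := by
      intro a
      conv_lhs => rw [← hfix]
      rw [W.act_comp _ (h.mem b), W.act_comp _ hγ]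
    intro a
    refine gr_induction (W.isInternal X) (p := fun a => W.act γ a = 0) ?_ ?_ a
    · intro l a ha
      by_cases hl : l = b
      · subst hl; exact h0 a ha
      · rw [hdec, h.proj b l a ha, if_neg hl, map_zero, map_zero]
    · intro a a' h1 h2
      rw [map_add, h1, h2, add_zero]
  have hCK := h.transp.prod h
  have h1 := act_prodCK_block h h (a := b) (by omega) b γ
  rw [hfix, show 2 * X.dim - b + b = 2 * X.dim by omega] at h1
  have key : ∀ n, n ≤ X.dim → γ ∈ F (X.prod X) X.dim (n + 1) := by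
    intro n
    induction n with
    | zero => exact fun _ => (hF.one hXX _ _).2 ⟨hγ, cl_eq_zero_of_act hact⟩
    | succ n ih =>
      intro hn
      have h2 := hF' hXX hXX (c := (X.prod X).dim) (i := X.dim) (j := X.dim)
        (m := 2 * X.dim - (n + 1)) (ν := n + 1) (hCK.mem (2 * X.dim)) rfl (by omega)
        (fun a ha => by rw [hCK.proj _ _ a ha, if_neg (by omega)]) (ih (by omega))
      rwa [h1] at h2
  have h3 := key X.dim le_rfl
  rwa [hF.last hXX, Submodule.mem_bot] at h3

/-- A Bloch–Beilinson filtration makes the homologically trivial correspondences nilpotent. -/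
theorem isNilpotent_of (hW : IsClosedClass P)
    {F : ∀ X : 𝒱.Obj, ℕ → ℕ → Submodule ℚ (C.CH X)} (hF : IsFiltration W P F)
    (hF' : FactorsThroughCoh W P F) (hX : P X)
    (x : degZero C X) (hx : x ∈ RingHom.ker (cohRep W X)) : IsNilpotent x := by
  have hXX := hW.prod_mem hX hX
  have h0 : ∀ a, W.act ((CorrRing.of C X).symm x.1) a = 0 := fun a =>
    congrArg (fun f : Module.End W.K (W.H X) => f a) (RingHom.mem_ker.1 hx)
  have key : ∀ n, n ≤ X.dim + 1 → (CorrRing.of C X).symm (x ^ n).1 ∈ F (X.prod X) X.dim n := by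
    intro n
    induction n with
    | zero =>
      intro _
      rw [hF.zero hXX, pow_zero]
      exact C.diagC_mem X
    | succ n ih =>
      intro hn
      have h2 := hF' hXX hXX (c := (X.prod X).dim) (i := X.dim) (j := X.dim)
        (m := 2 * X.dim - n) (ν := n) (C.opL_mem x.2) rfl (by omega)
        (fun a _ => act_opL_eq_zero x.2 h0 a) (ih (by omega))
      rw [C.act_opL] at h2
      rw [pow_succ']
      exact h2
  refine ⟨X.dim + 1, ?_⟩
  have h := key _ le_rfl
  rw [hF.last hXX, Submodule.mem_bot] at h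
  exact Subtype.ext h

lemma act_act_of_projectors {p : ℕ → C.CH (X.prod X)}
    (hp : ∀ j, IsProjector (W.gr X) j (W.act (p j))) (i j : ℕ) (a : W.H X) :
    W.act (p i) (W.act (p j) a) = if i = j then W.act (p j) a else 0 := by
  refine gr_induction (W.isInternal X) (p := fun a => W.act (p i) (W.act (p j) a) =
    if i = j then W.act (p j) a else 0) ?_ ?_ a
  · intro l a ha
    rw [hp j l a ha]
    by_cases hl : l = j
    · rw [if_pos hl, hp i l a ha]
      by_cases hi : i = j
      · rw [if_pos hi, if_pos (by omega)]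
      · rw [if_neg hi, if_neg (by omega)]
    · rw [if_neg hl, map_zero, ite_self]
  · intro a b ha hb
    rw [map_add, map_add, ha, hb]
    split
    · rfl
    · rw [add_zero]

lemma sum_projectors {p : ℕ → C.CH (X.prod X)}
    (hp : ∀ j, IsProjector (W.gr X) j (W.act (p j))) (a : W.H X) :
    ∑ j ∈ Finset.range (2 * X.dim + 1), W.act (p j) a = a := by
  refine gr_induction (W.isInternal X) (p := fun a =>
    ∑ j ∈ Finset.range (2 * X.dim + 1), W.act (p j) a = a) ?_ ?_ a
  · intro l a ha
    by_cases hl : l < 2 * X.dim + 1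
    · rw [Finset.sum_eq_single l]
      · rw [hp l l a ha, if_pos rfl]
      · intro b _ hb
        rw [hp b l a ha, if_neg (by omega)]
      · intro h
        exact absurd (Finset.mem_range.2 hl) h
    · rw [W.gr_eq_bot X l (by omega), Submodule.mem_bot] at ha
      rw [ha]
      simp
  · intro a b ha hb
    simp only [map_add, Finset.sum_add_distrib, ha, hb]

/-- If there is a Bloch–Beilinson filtration, then the varieties of the class which satisfy the
Lefschetz standard conjecture have Chow–Künneth decompositions. -/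
theorem hasCK_of (hW : IsClosedClass P)
    {F : ∀ X : 𝒱.Obj, ℕ → ℕ → Submodule ℚ (C.CH X)} (hF : IsFiltration W P F)
    (hF' : FactorsThroughCoh W P F) (hX : P X) (hL : LefschetzStd W X) : W.HasCK X := by
  obtain ⟨p, hp, hpr⟩ := exists_kunnethProjectors hL
  have he : CompleteOrthogonalIdempotents
      (fun j : Fin (2 * X.dim + 1) => (W.act (p j) : Module.End W.K (W.H X))) := by
    refine ⟨⟨fun j => ?_, fun i j hij => ?_⟩, ?_⟩
    · ext a
      have := act_act_of_projectors hpr j j a
      rwa [if_pos rfl] at this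
    · ext a
      have := act_act_of_projectors hpr i j a
      rwa [if_neg (fun h => hij (Fin.ext h))] at this
    · ext a
      rw [LinearMap.sum_apply, Fin.sum_univ_eq_sum_range (fun j => W.act (p j) a)]
      exact sum_projectors hpr a
  obtain ⟨e, he1, he2⟩ := CompleteOrthogonalIdempotents.lift_of_isNilpotent_ker (cohRep W X)
    (isNilpotent_of hW hF hF' hX) he (fun j => ⟨⟨CorrRing.of C X (p j), hp j⟩, rfl⟩)
  have hact : ∀ j, W.act ((CorrRing.of C X).symm (e j).1) = W.act (p j) := fun j =>
    congrFun he2 j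
  refine ⟨fun j => if h : j < 2 * X.dim + 1 then (CorrRing.of C X).symm (e ⟨j, h⟩).1 else 0, ?_⟩
  refine ⟨fun j => ?_, fun j => ?_, fun i j hij => ?_, ?_, fun j => ?_⟩
  · split
    · exact (e _).2
    · exact Submodule.zero_mem _
  · by_cases h : j < 2 * X.dim + 1
    · simp only [dif_pos h]
      exact congrArg Subtype.val (he1.idem ⟨j, h⟩)
    · simp only [dif_neg h, C.comp_zero]
  · by_cases hj : j < 2 * X.dim + 1
    · by_cases hi : i < 2 * X.dim + 1
      · simp only [dif_pos hi, dif_pos hj]
        exact congrArg Subtype.val (he1.ortho (i := ⟨j, hj⟩) (j := ⟨i, hi⟩)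
          (fun h => hij (Fin.mk.inj_iff.1 h).symm))
      · simp only [dif_neg hi, C.zero_comp]
    · simp only [dif_neg hj, C.comp_zero]
  · rw [Finset.sum_range]
    simp only [Fin.is_lt, dite_true, Fin.eta]
    have h1 : (CorrRing.of C X).symm ((∑ i, e i : degZero C X) : CorrRing C X) = C.diagC X :=
      congrArg (fun x : degZero C X => (CorrRing.of C X).symm x.1) he1.complete
    rw [AddSubmonoidClass.coe_finsetSum, map_sum] at h1
    exact h1
  · by_cases h : j < 2 * X.dim + 1
    · simp only [dif_pos h]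
      rw [hact]
      exact hpr j
    · simp only [dif_neg h, W.act_zero]
      intro l a ha
      by_cases hl : l = j
      · rw [W.gr_eq_bot X l (by omega), Submodule.mem_bot] at ha
        rw [ha]
        simp
      · rw [if_neg hl]
        rfl

/-- **Theorem 5.** For a class of varieties which satisfy the Lefschetz standard conjecture, a
Bloch–Beilinson filtration exists if and only if the varieties have Chow–Künneth decompositions and
the endomorphisms of `h^d(X)`, `d = dim X`, act faithfully on `H^d(X)`. -/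
theorem exists_blochBeilinson_iff_of_lefschetz (hP : C.Polarized) (hBS : BlochSrinivas C)
    (hF : HasDegenerating C) (hW : IsClosedClass P) (hL : ∀ X, P X → LefschetzStd W X) :
    (∃ F, IsBlochBeilinson W P F) ↔ ∀ X, P X → W.HasCK X ∧ FaithfulMid W X := by
  constructor
  · rintro ⟨F, hF⟩ X hX
    exact ⟨hasCK_of hW hF.isFiltration hF.factors hX (hL X hX), (hF.faithfulEnd hW hX).mid⟩
  · intro H
    exact (exists_blochBeilinson_iff hP hBS hF hW (fun X hX => (H X hX).1)
      fun X hX => (hL X hX).isLow).2 fun X hX => (H X hX).2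

end Pool.Agent.E870.P
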