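import Pool.Agent.E870.P.Main

/-!
# The Lefschetz standard conjecture and the second half of (B)
-/

open CategoryTheory CategoryTheory.Limits AlgebraicGeometry
open Pool.Agent.H914 Pool.Agent.H914.VarClass Pool.Agent.H914.VarClass.Obj Pool.Agent.R903
open Pool.Agent.E870.Q
open Pool.Agent.R903.WeilTheory

universe u v w

namespace Pool.Agent.E870.P

variable {k : Type u} [Field k] {𝒱 : VarClass k} {C : ChowTheory.{u, v} 𝒱}
variable {W : WeilTheory.{u, v, w} C} {X Y Z E : 𝒱.Obj} {P : 𝒱.Obj → Prop}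

/-- multiplication by `y` as a correspondence -/
noncomputable def mulC (C : ChowTheory.{u, v} 𝒱) {X : 𝒱.Obj} (y : C.CH X) : C.CH (X.prod X) :=
  C.span (𝟙 X) (𝟙 X) y

lemma mulC_mem {y : C.CH X} {n : ℕ} (hy : y ∈ C.gr X n) :
    mulC C y ∈ C.gr (X.prod X) (X.dim + n) :=
  C.span_mem _ _ hy (by omega)

lemma act_mulC (y x : C.CH X) : C.act (mulC C y) x = y * x := by
  rw [mulC, C.act_span, C.pull_id, C.push_id]

lemma wact_mulC (y : C.CH X) (a : W.H X) : W.act (mulC C y) a = W.cl X y * a := by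
  rw [mulC, W.act_span, W.map_id, W.push_id]

lemma act_eq_zero_of_factorsLow {j i : ℕ} (hij : j < i) {ε : C.CH (X.prod X)}
    (hε : ε ∈ factorsLow C X j) {x : C.CH X} (hx : x ∈ C.gr X i) : C.act ε x = 0 := by
  induction hε using Submodule.span_induction with
  | mem γ hγ =>
    obtain ⟨Z, a, b, hab, hle, α, hα, β, hβ, rfl⟩ := hγ
    have h1 : C.act α x = 0 := by
      by_cases h : i + a < X.dim
      · exact C.act_eq_zero hα hx h
      · have h2 : C.act α x ∈ C.gr Z (i + a - X.dim) := C.act_mem hα hx (by omega)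
        rwa [C.gr_eq_bot Z _ (by omega), Submodule.mem_bot] at h2
    rw [C.act_comp, h1, map_zero]
  | zero => rw [C.act_zero, LinearMap.zero_apply]
  | add y z _ _ hy hz => rw [C.act_add, LinearMap.add_apply, hy, hz, add_zero]
  | smul q y _ hy => rw [C.act_smul, LinearMap.smul_apply, hy, smul_zero]

lemma factorsLow_mem {j : ℕ} {ε : C.CH (X.prod X)} (hε : ε ∈ factorsLow C X j) :
    ε ∈ C.gr (X.prod X) X.dim := by
  induction hε using Submodule.span_induction with
  | mem γ hγ =>
    obtain ⟨Z, a, b, hab, hle, α, hα, β, hβ, rfl⟩ := hγ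
    exact C.comp_mem hα hβ (by omega)
  | zero => exact Submodule.zero_mem _
  | add y z _ _ hy hz => exact Submodule.add_mem _ hy hz
  | smul q y _ hy => exact Submodule.smul_mem _ _ hy

lemma comp_factorsLow {j : ℕ} {ε π : C.CH (X.prod X)} (hπ : π ∈ C.gr (X.prod X) X.dim)
    (hε : ε ∈ factorsLow C X j) : C.comp π ε ∈ factorsLow C X j := by
  induction hε using Submodule.span_induction with
  | mem γ hγ =>
    obtain ⟨Z, a, b, hab, hle, α, hα, β, hβ, rfl⟩ := hγ
    exact Submodule.subset_span ⟨Z, a, b, hab, hle, C.comp π α, C.comp_mem hπ hα (by omega), β, hβ,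
      C.comp_assoc _ _ _⟩
  | zero => rw [C.comp_zero]; exact Submodule.zero_mem _
  | add y z _ _ hy hz => rw [C.comp_add]; exact Submodule.add_mem _ hy hz
  | smul q y _ hy => rw [C.comp_smul]; exact Submodule.smul_mem _ _ hy

lemma smul_tensor (q : ℚ) (α : C.CH (X.prod X)) (β : C.CH (Y.prod Y)) :
    C.tensor (q • α) β = q • C.tensor α β := by
  simp [ChowTheory.tensor]

lemma tensor_smul (q : ℚ) (α : C.CH (X.prod X)) (β : C.CH (Y.prod Y)) :
    C.tensor α (q • β) = q • C.tensor α β := by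
  simp [ChowTheory.tensor]

lemma add_tensor (α α' : C.CH (X.prod X)) (β : C.CH (Y.prod Y)) :
    C.tensor (α + α') β = C.tensor α β + C.tensor α' β := by
  simp [ChowTheory.tensor, add_mul]

lemma tensor_factorsLow {p q : ℕ} {ε : C.CH (X.prod X)} {η : C.CH (Y.prod Y)}
    (hε : ε ∈ factorsLow C X p) (hη : η ∈ factorsLow C Y q) :
    C.tensor ε η ∈ factorsLow C (X.prod Y) (p + q) := by
  induction hε using Submodule.span_induction with
  | mem γ hγ =>
    obtain ⟨Z, a, b, hab, hle, α, hα, β, hβ, rfl⟩ := hγ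
    induction hη using Submodule.span_induction with
    | mem γ hγ =>
      obtain ⟨Z', a', b', hab', hle', α', hα', β', hβ', rfl⟩ := hγ
      rw [← C.comp_tensor]
      exact Submodule.subset_span ⟨Z.prod Z', a + a', b + b', by simp only [dim_prod]; omega,
        by simp only [dim_prod]; omega, _, C.tensor_mem hα hα', _, C.tensor_mem hβ hβ', rfl⟩
    | zero => rw [C.tensor_zero]; exact Submodule.zero_mem _
    | add y z _ _ hy hz => rw [C.tensor_add]; exact Submodule.add_mem _ hy hz
    | smul q y _ hy => rw [tensor_smul]; exact Submodule.smul_mem _ _ hy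
  | zero => rw [C.zero_tensor]; exact Submodule.zero_mem _
  | add y z _ _ hy hz => rw [add_tensor]; exact Submodule.add_mem _ hy hz
  | smul q y _ hy => rw [smul_tensor]; exact Submodule.smul_mem _ _ hy

/-- The property `IsLow` passes to products of varieties with Chow–Künneth decompositions. -/
theorem IsLow.prod (hX : LowClass W X) (hY : LowClass W Y) : IsLow W (X.prod Y) := by
  obtain ⟨⟨π, h⟩, hX⟩ := hX
  obtain ⟨⟨ρ, h'⟩, hY⟩ := hY
  intro j
  choose ε hε hε1 using hX
  choose η hη hη1 using hY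
  have hE : ∀ p, C.comp (π p) (ε p) ∈ factorsLow C X p := fun p => comp_factorsLow (h.mem p) (hε p)
  have hH : ∀ p, C.comp (ρ p) (η p) ∈ factorsLow C Y p := fun p => comp_factorsLow (h'.mem p) (hη p)
  have aE : ∀ p l, ∀ a ∈ W.gr X l, W.act (C.comp (π p) (ε p)) a = if l = p then a else 0 := by
    intro p l a ha
    rw [W.act_comp _ (factorsLow_mem (hε p)), h.proj p l a ha]
    split_ifs with hl
    · subst hl; exact hε1 l a ha
    · rw [map_zero]
  have aH : ∀ p l, ∀ a ∈ W.gr Y l, W.act (C.comp (ρ p) (η p)) a = if l = p then a else 0 := by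
    intro p l a ha
    rw [W.act_comp _ (factorsLow_mem (hη p)), h'.proj p l a ha]
    split_ifs with hl
    · subst hl; exact hη1 l a ha
    · rw [map_zero]
  refine ⟨∑ x ∈ Finset.HasAntidiagonal.antidiagonal j,
    C.tensor (C.comp (π x.1) (ε x.1)) (C.comp (ρ x.2) (η x.2)), ?_, ?_⟩
  · refine Submodule.sum_mem _ ?_
    rintro ⟨p, q⟩ hpq
    rw [Finset.HasAntidiagonal.mem_antidiagonal] at hpq
    rw [← hpq]
    exact tensor_factorsLow (hE p) (hH q)
  · have key : IsProjector (W.gr (X.prod Y)) j (W.act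
        (∑ x ∈ Finset.HasAntidiagonal.antidiagonal j,
          C.tensor (C.comp (π x.1) (ε x.1)) (C.comp (ρ x.2) (η x.2)))) := by
      apply W.isProjector_of_prod
      intro p q a ha b hb
      rw [W.act_sum, LinearMap.sum_apply]
      have h1 : ∀ x ∈ Finset.HasAntidiagonal.antidiagonal j,
          W.act (C.tensor (C.comp (π x.1) (ε x.1)) (C.comp (ρ x.2) (η x.2)))
          (W.map (fst X Y) a * W.map (snd X Y) b) =
          if x = (p, q) then W.map (fst X Y) a * W.map (snd X Y) b else 0 := by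
        intro x _
        have h2 := aE x.1 p a ha
        have h3 := aH x.2 q b hb
        rw [act_tensor_prod (factorsLow_mem (hH x.2)) (p := p), h2, h3]
        · by_cases h4 : p = x.1
          · by_cases h5 : q = x.2
            · rw [if_pos h4, if_pos h5, if_pos (Prod.ext h4.symm h5.symm)]
            · rw [if_neg h5, map_zero, mul_zero, if_neg (fun h6 => h5 (congrArg Prod.snd h6).symm)]
          · rw [if_neg h4, map_zero, zero_mul, if_neg (fun h6 => h4 (congrArg Prod.fst h6).symm)]
        · rw [h2]; split_ifs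
          · exact ha
          · exact Submodule.zero_mem _
      rw [Finset.sum_congr rfl h1, Finset.sum_ite_eq']
      simp only [Finset.HasAntidiagonal.mem_antidiagonal]
    intro a ha
    rw [key j a ha, if_pos rfl]

/-- The Lefschetz standard conjecture implies `IsLow`. -/
theorem LefschetzStd.isLow (hL : LefschetzStd W X) : IsLow W X := by
  obtain ⟨D, hD, hΛ⟩ := hL
  intro j
  by_cases hj : j ≤ X.dim
  · obtain ⟨Λ, hΛmem, hΛ⟩ := hΛ j hj
    have hLmem : mulC C (D ^ (X.dim - j)) ∈ C.gr (X.prod X) (X.dim + (X.dim - j)) :=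
      mulC_mem (pow_mem_gr hD _)
    refine ⟨C.comp (mulC C (D ^ (X.dim - j))) Λ, Submodule.subset_span ⟨X, _, _,
      by omega, by omega, _, hLmem, _, hΛmem, rfl⟩, fun a ha => ?_⟩
    rw [W.act_comp _ hΛmem, wact_mulC, hΛ a ha]
  · refine ⟨C.diagC X, Submodule.subset_span ⟨X, X.dim, X.dim, rfl, by omega, C.diagC X,
      C.diagC_mem X, C.diagC X, C.diagC_mem X, C.comp_diagC _⟩, fun a _ => W.act_diagC a⟩

/-- Curves satisfy the Lefschetz standard conjecture. -/
theorem lefschetzStd_curve (hP : C.Polarized) (hE : E.dim = 1) : LefschetzStd W E := by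
  obtain ⟨e, he, hd⟩ := exists_deg_one hP hE
  refine ⟨e, he, fun j hj => ?_⟩
  have hj' : j = 0 ∨ j = 1 := by omega
  rcases hj' with rfl | rfl
  · refine ⟨C.ext 1 1, C.ext_mem (C.one_mem E) (C.one_mem E), fun a ha => ?_⟩
    obtain ⟨c, rfl⟩ := gr_zero_eq W ha
    rw [wact_ext W 1 (C.one_mem E), map_one, one_mul, hE, Nat.sub_zero, pow_one, mul_smul_comm,
      mul_one, map_smul, W.tr_cl, hd, smul_eq_mul, Rat.cast_one, mul_one]
  · refine ⟨C.diagC E, ?_, fun a _ => ?_⟩
    · have := C.diagC_mem E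
      rwa [hE] at this
    · rw [hE, Nat.sub_self, pow_zero, map_one, one_mul, W.act_diagC]

/-- The class `LowClass` is closed under products and contains the curves. -/
theorem isClosedClass_lowClass (hP : C.Polarized) : IsClosedClass (LowClass W) where
  prod_mem := by
    intro X Y hX hY
    refine ⟨?_, IsLow.prod hX hY⟩
    obtain ⟨⟨π, h⟩, _⟩ := hX
    obtain ⟨⟨ρ, h'⟩, _⟩ := hY
    exact ⟨_, h.prod h'⟩
  curve_mem := by
    intro E hE
    obtain ⟨e, he, hd⟩ := exists_deg_one hP hE
    exact ⟨⟨_, isCK_curve hE he hd⟩, (lefschetzStd_curve hP hE).isLow⟩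

/-- If the endomorphisms of `h^b(X)` act faithfully on `H^b(X)` and `X` satisfies `IsLow`, then
`CH^i(h^b(X)) = 0` for `b < i`. -/
theorem act_eq_zero_of_isLow (hF : FaithfulEnd W X) (hL : IsLow W X)
    {π : ℕ → C.CH (X.prod X)} (h : W.IsCK X π) {i b : ℕ} (hb : b < i) {x : C.CH X}
    (hx : x ∈ C.gr X i) : C.act (π b) x = 0 := by
  obtain ⟨ε, hε, hε1⟩ := hL b
  have hεmem := factorsLow_mem hε
  -- the correspondence `π b ∘ ε ∘ π b - π b`
  set γ := C.comp (C.comp (π b) ε) (π b) - π b with hγ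
  have hγmem : γ ∈ C.gr (X.prod X) X.dim :=
    Submodule.sub_mem _ (C.comp_mem (C.comp_mem (h.mem _) hεmem rfl) (h.mem _) rfl) (h.mem _)
  have hγfix : C.comp (C.comp (π b) γ) (π b) = γ := by
    rw [hγ, comp_sub'', comp_sub', h.idem]
    congr 1
    · rw [← C.comp_assoc, ← C.comp_assoc, h.idem, C.comp_assoc, h.idem]
    · exact h.idem b
  have hγ0 : ∀ a ∈ W.gr X b, W.act γ a = 0 := by
    intro a ha
    have hπa : W.act (π b) a = a := by rw [h.proj b b a ha, if_pos rfl]
    rw [hγ, W.act_sub, LinearMap.sub_apply, W.act_comp _ (h.mem _), W.act_comp _ hεmem, hπa,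
      hε1 a ha, hπa, sub_self]
  have h1 : C.comp (C.comp (π b) ε) (π b) = π b :=
    sub_eq_zero.1 (hF π h b γ hγmem hγfix hγ0)
  have h3 : C.act (C.comp (C.comp (π b) ε) (π b)) x = 0 := by
    rw [C.act_comp, C.act_comp, act_eq_zero_of_factorsLow hb hε (act_mem_gr h b hx), map_zero]
  rwa [h1] at h3

/-- The part of weight zero of (D) implies (C) and (D), and (B) for all `X` which satisfy
`IsLow`. -/
theorem murre_of_D0 (hP : C.Polarized) (hBS : BlochSrinivas C) (hF : HasDegenerating C)
    (hW : IsClosedClass P) (H : ∀ X, P X → MurreD0 W X) (hX : P X) :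
    W.MurreC X ∧ MurreD W X ∧ (IsLow W X → W.MurreB X) := by
  have hB : ∀ {X}, P X → ∀ i, W.MurreB0 X i := fun hX => murreB0_of_murreD0 hP hBS hF hW H hX
  have hXX := hW.prod_mem hX hX
  have hC : W.MurreC X := ((hB hXX X.dim).triangular).murreC
  refine ⟨hC, murreD_of (hB hX) (H X hX), fun hL π h i => ⟨hB hX i π h, ?_⟩⟩
  rw [eq_bot_iff]
  intro x hx
  rw [mem_ckFil h] at hx
  rw [Submodule.mem_bot, ← h.sum_act x]
  refine Finset.sum_eq_zero fun b _ => ?_
  by_cases hb : b < i
  · exact act_eq_zero_of_isLow (H _ hXX).faithfulEnd hL h hb hx.1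
  · exact hx.2 b (by omega)

/-- **Theorem 3.** For varieties in `LowClass` the conjectures (B), (C) and (D) together are
equivalent to the faithfulness of the action of `End(h^d(X))` on `H^d(X)`, `d = dim X`. -/
theorem murre_iff (hP : C.Polarized) (hBS : BlochSrinivas C) (hF : HasDegenerating C)
    (hW : IsClosedClass P) (hL : ∀ X, P X → IsLow W X) :
    (∀ X, P X → W.MurreB X ∧ W.MurreC X ∧ MurreD W X) ↔ ∀ X, P X → FaithfulMid W X := by
  have h1 := tfae_D (W := W) hP hBS hF hW
  constructor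
  · intro H
    exact (h1.out 0 2).1 fun X hX => (H X hX).2.2
  · intro H X hX
    have H0 : ∀ X, P X → MurreD0 W X :=
      fun X hX => murreD0_of_mid hP hBS hF hW ((h1.out 2 1).1 H) hX
    obtain ⟨h2, h3, h4⟩ := murre_of_D0 hP hBS hF hW H0 hX
    exact ⟨h4 (hL X hX), h2, h3⟩

end Pool.Agent.E870.P
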