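import Pool.Agent.E870.P.Curve

/-!
# Murre's conjectures and degenerating families of curves
-/

open CategoryTheory CategoryTheory.Limits AlgebraicGeometry
open Pool.Agent.H914 Pool.Agent.H914.VarClass Pool.Agent.H914.VarClass.Obj Pool.Agent.R903
open Pool.Agent.E870.Q
open Pool.Agent.R903.WeilTheory

universe u v w

namespace Pool.Agent.E870.P

variable {k : Type u} [Field k] {𝒱 : VarClass k} {C : ChowTheory.{u, v} 𝒱}
variable {W : WeilTheory.{u, v, w} C} {X Y Z E : 𝒱.Obj} {P : 𝒱.Obj → Prop}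

/-- a class of degree one on a curve -/
lemma exists_deg_one (hP : C.Polarized) (hE : E.dim = 1) : ∃ e ∈ C.gr E 1, C.deg E e = 1 := by
  obtain ⟨D, hD, hd⟩ := hP E
  rw [hE, pow_one] at hd
  refine ⟨(C.deg E D)⁻¹ • D, Submodule.smul_mem _ _ hD, ?_⟩
  rw [map_smul, smul_eq_mul, inv_mul_cancel₀ hd]

/-- Reduction of vanishing statements on `CH^i(h^(2i+m)(X))` to the varieties with
`dim X = 2i + s`: multiply with the class `1` or with a point of a curve. -/
theorem of_mid (hW : IsClosedClass P) (hE : E.dim = 1) {e : C.CH E} (he : e ∈ C.gr E 1)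
    (hd : C.deg E e = 1) {m s : ℕ}
    (H : ∀ X, P X → ∀ (π : ℕ → C.CH (X.prod X)), W.IsCK X π → ∀ (i : ℕ), X.dim = 2 * i + s →
      ∀ x ∈ C.gr X i, C.act (π (2 * i + m)) x = x → W.cl X x = 0 → x = 0) (n : ℕ) :
    ∀ X, P X → ∀ (π : ℕ → C.CH (X.prod X)), W.IsCK X π → ∀ (i : ℕ),
      (X.dim + n = 2 * i + s ∨ X.dim = 2 * i + s + n) →
      ∀ x ∈ C.gr X i, C.act (π (2 * i + m)) x = x → W.cl X x = 0 → x = 0 := by
  have hE' : W.IsCK E (curveCK C E e) := isCK_curve hE he hd
  induction n with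
  | zero =>
    intro X hX π h i hi x hx hfix hcl
    exact H X hX π h i (by omega) x hx hfix hcl
  | succ n ih =>
    intro X hX π h i hi x hx hfix hcl
    have hXE := hW.prod_mem hX (hW.curve_mem hE)
    have hclz : ∀ z : C.CH E, W.cl (X.prod E) (C.ext x z) = 0 := by
      intro z
      rw [ChowTheory.ext, W.cl_mul, W.cl_pull, hcl, map_zero, zero_mul]
    rcases hi with hi | hi
    · refine eq_zero_of_ext_one hd ?_
      have h1 := act_prodCK_ext_gen h hE' hfix (act_curveCK_zero hd)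
      refine ih _ hXE _ (h.prod hE') i (Or.inl (by rw [dim_prod, hE]; omega)) _
        (C.ext_mem hx (C.one_mem E)) ?_ (hclz _)
      exact h1
    · refine eq_zero_of_ext_e hd ?_
      have h1 := act_prodCK_ext_gen h hE' hfix (act_curveCK_two hd)
      refine ih _ hXE _ (h.prod hE') (i + 1) (Or.inr (by rw [dim_prod, hE]; omega)) _
        (C.ext_mem hx he) ?_ (hclz _)
      rwa [show 2 * (i + 1) + m = 2 * i + m + 2 by ring]

/-- Peeling for classes in the part `π b`. -/
lemma peel_block (hP : C.Polarized) (hBS : BlochSrinivas C) (hF : HasDegenerating C)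
    {π : ℕ → C.CH (X.prod X)} (h : W.IsCK X π) {i b : ℕ} {x : C.CH X} (hx : x ∈ C.gr X i)
    (hfix : C.act (π b) x = x)
    (H : ∀ (E : 𝒱.Obj), E.dim = 1 → ∀ (ρ : ℕ → C.CH ((X.prod E).prod (X.prod E))),
      W.IsCK (X.prod E) ρ → ∀ y ∈ C.gr (X.prod E) (i + 1), C.act (ρ (b + 1)) y = y →
      (W.cl X x = 0 → W.cl (X.prod E) y = 0) → y = 0) : x = 0 := by
  obtain ⟨V, S, f, θ, τ, hf⟩ := hF
  refine peel hBS hf fun E hE z hz hd => ?_
  obtain ⟨e, he, hde⟩ := exists_deg_one hP hE
  refine H E hE _ (h.prod (isCK_curve hE he hde)) _ (C.ext_mem hx hz)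
    (act_prodCK_ext h hE he hde hfix hz hd) fun hcl => ?_
  rw [ChowTheory.ext, W.cl_mul, W.cl_pull, hcl, map_zero, zero_mul]

/-- The vanishing of `CH^i(h^(2i+1)(X))` for all `X` implies the vanishing of `CH^i(h^b(X))` for
all `b > 2i`. -/
theorem block_eq_zero_of_noExcessOne (hP : C.Polarized) (hBS : BlochSrinivas C)
    (hF : HasDegenerating C) (hW : IsClosedClass P) (H : ∀ X, P X → NoExcessOne W X) (n : ℕ) :
    ∀ (X : 𝒱.Obj), P X → ∀ (π : ℕ → C.CH (X.prod X)), W.IsCK X π → ∀ (i : ℕ), ∀ x ∈ C.gr X i,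
      C.act (π (2 * i + 1 + n)) x = x → x = 0 := by
  induction n with
  | zero =>
    intro X hX π h i x hx hfix
    rw [← hfix]
    exact H X hX π h i x hx
  | succ n ih =>
    intro X hX π h i x hx hfix
    refine peel_block hP hBS hF h hx hfix fun E hE ρ hρ y hy hfy _ => ?_
    refine ih _ (hW.prod_mem hX (hW.curve_mem hE)) ρ hρ (i + 1) y hy ?_
    rwa [show 2 * (i + 1) + 1 + n = 2 * i + 1 + (n + 1) + 1 by ring]

/-- The part of weight zero of (D) for all `X` implies the vanishing of the homologically trivial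
classes in `CH^i(h^b(X))` for all `b ≥ 2i`. -/
theorem block_eq_zero_of_murreD0 (hP : C.Polarized) (hBS : BlochSrinivas C)
    (hF : HasDegenerating C) (hW : IsClosedClass P) (H : ∀ X, P X → MurreD0 W X) (n : ℕ) :
    ∀ (X : 𝒱.Obj), P X → ∀ (π : ℕ → C.CH (X.prod X)), W.IsCK X π → ∀ (i : ℕ), ∀ x ∈ C.gr X i,
      C.act (π (2 * i + n)) x = x → W.cl X x = 0 → x = 0 := by
  induction n with
  | zero =>
    intro X hX π h i x hx hfix hcl
    exact H X hX π h i x hx hfix hcl
  | succ n ih =>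
    intro X hX π h i x hx hfix hcl
    refine peel_block hP hBS hF h hx hfix fun E hE ρ hρ y hy hfy hy0 => ?_
    refine ih _ (hW.prod_mem hX (hW.curve_mem hE)) ρ hρ (i + 1) y hy ?_ (hy0 hcl)
    rwa [show 2 * (i + 1) + n = 2 * i + (n + 1) + 1 by ring]

/-- classes in `CH^i(h^b(X))`, `b ≠ 2i`, are homologically trivial -/
lemma cl_block {π : ℕ → C.CH (X.prod X)} (h : W.IsCK X π) {i b : ℕ} (hb : b ≠ 2 * i)
    {x : C.CH X} (hx : x ∈ C.gr X i) : W.cl X (C.act (π b) x) = 0 := by
  rw [W.cl_act, h.proj b _ _ (W.cl_mem hx), if_neg (by omega)]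

lemma act_idem {π : ℕ → C.CH (X.prod X)} (h : W.IsCK X π) (b : ℕ) (x : C.CH X) :
    C.act (π b) (C.act (π b) x) = C.act (π b) x := by
  rw [h.act_act, if_pos rfl]

lemma act_mem_gr {π : ℕ → C.CH (X.prod X)} (h : W.IsCK X π) (b : ℕ) {i : ℕ} {x : C.CH X}
    (hx : x ∈ C.gr X i) : C.act (π b) x ∈ C.gr X i :=
  C.act_mem (h.mem b) hx rfl

theorem murreB0_of_noExcessOne (hP : C.Polarized) (hBS : BlochSrinivas C)
    (hF : HasDegenerating C) (hW : IsClosedClass P) (H : ∀ X, P X → NoExcessOne W X) (hX : P X)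
    (i : ℕ) : W.MurreB0 X i := by
  intro π h
  rw [ckFil_zero_eq_iff h]
  intro b hb x hx
  obtain ⟨n, rfl⟩ : ∃ n, b = 2 * i + 1 + n := ⟨b - (2 * i + 1), by omega⟩
  exact block_eq_zero_of_noExcessOne hP hBS hF hW H n X hX π h i _ (act_mem_gr h _ hx) (act_idem h _ _)

theorem murreB0_of_murreD0 (hP : C.Polarized) (hBS : BlochSrinivas C)
    (hF : HasDegenerating C) (hW : IsClosedClass P) (H : ∀ X, P X → MurreD0 W X) (hX : P X)
    (i : ℕ) : W.MurreB0 X i := by
  intro π h
  rw [ckFil_zero_eq_iff h]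
  intro b hb x hx
  obtain ⟨n, rfl⟩ : ∃ n, b = 2 * i + n := ⟨b - 2 * i, by omega⟩
  exact block_eq_zero_of_murreD0 hP hBS hF hW H n X hX π h i _ (act_mem_gr h _ hx) (act_idem h _ _)
    (cl_block h (by omega) hx)

/-- (D) follows from its part of weight zero and the first half of (B). -/
theorem murreD_of (hB : ∀ i, W.MurreB0 X i) (hD : MurreD0 W X) : MurreD W X := by
  intro π h i x
  rw [mem_ckFil h]
  constructor
  · rintro ⟨hx, h0⟩
    refine ⟨hx, ?_⟩
    have h1 : W.cl X (C.act (π (2 * i)) x) = W.cl X x := by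
      rw [W.cl_act, h.proj _ _ _ (W.cl_mem hx), if_pos rfl]
    rw [← h1, h0 (2 * i) (by omega), map_zero]
  · rintro ⟨hx, hcl⟩
    refine ⟨hx, fun b hb => ?_⟩
    by_cases hb' : b = 2 * i
    · subst hb'
      refine hD π h i _ (act_mem_gr h _ hx) (act_idem h _ _) ?_
      rw [W.cl_act, hcl, map_zero]
    · exact (ckFil_zero_eq_iff h).1 (hB i π h) b (by omega) x hx

theorem MurreD.murreD0 (hD : MurreD W X) : MurreD0 W X := by
  intro π h i x hx hfix hcl
  have h1 := ((mem_ckFil h).1 ((hD π h i x).2 ⟨hx, hcl⟩)).2 (2 * i) (by omega)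
  rw [← hfix, h1]

/-- a correspondence which acts as zero on cohomology is homologically trivial -/
lemma cl_eq_zero_of_act {γ : C.CH (X.prod Y)} (h : ∀ a, W.act γ a = 0) :
    W.cl (X.prod Y) γ = 0 := by
  apply W.nondeg
  intro c
  refine W.kunneth_induction (p := fun c => W.tr (X.prod Y) (W.cl (X.prod Y) γ * c) = 0) ?_ ?_ c
  · intro a b ha hb
    rw [mul_add, map_add, ha, hb, add_zero]
  · intro i j a _ b _
    rw [← mul_assoc, ← W.tr_push, ← W.act_apply, h, zero_mul, map_zero]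

theorem MurreD0.faithfulEnd (hD : MurreD0 W (X.prod X)) : FaithfulEnd W X := by
  intro π h b γ hγ hfix h0
  by_cases hb : 2 * X.dim < b
  · rw [← hfix, h.eq_zero hb, C.comp_zero]
  have hact : ∀ a, W.act γ a = 0 := by
    have hdec : ∀ a, W.act γ a = W.act (π b) (W.act γ (W.act (π b) a)) := by
      intro a
      conv_lhs => rw [← hfix]
      rw [W.act_comp _ (h.mem b), W.act_comp _ hγ]
    intro a
    refine gr_induction (W.isInternal X) (p := fun a => W.act γ a = 0) ?_ ?_ a
    · intro l a ha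
      by_cases hl : l = b
      · subst hl; exact h0 a ha
      · rw [hdec, h.proj b l a ha, if_neg hl, map_zero, map_zero]
    · intro a a' h1 h2
      rw [map_add, h1, h2, add_zero]
  have hCK := h.transp.prod h
  refine hD _ hCK X.dim γ hγ ?_ (cl_eq_zero_of_act hact)
  have h1 := act_prodCK_block h h (a := b) (by omega) b γ
  rw [hfix, show 2 * X.dim - b + b = 2 * X.dim by omega] at h1
  exact h1

/-- the degree of the projection of a power of a divisor class -/
lemma deg_proj {π : ℕ → C.CH (X.prod X)} (h : W.IsCK X π) {D : C.CH X} (hD : D ∈ C.gr X 1)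
    {i : ℕ} (hi : i ≤ X.dim) :
    C.deg X (C.act (π (2 * i)) (D ^ i) * D ^ (X.dim - i)) = C.deg X (D ^ X.dim) := by
  have hpow : ∀ m, D ^ m ∈ C.gr X m := by
    intro m
    induction m with
    | zero => rw [pow_zero]; exact C.one_mem X
    | succ m ih => rw [pow_succ]; exact C.mul_mem ih hD
  have h1 : (C.deg X (C.act (π (2 * i)) (D ^ i) * D ^ (X.dim - i)) : W.K) =
      (C.deg X (D ^ X.dim) : W.K) := by
    rw [← W.tr_cl, ← W.tr_cl, W.cl_mul, W.cl_act, h.proj _ _ _ (W.cl_mem (hpow i)), if_pos rfl,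
      ← W.cl_mul, ← pow_add, Nat.add_sub_cancel' hi]
  exact_mod_cast h1

lemma pow_mem_gr {D : C.CH X} (hD : D ∈ C.gr X 1) (m : ℕ) : D ^ m ∈ C.gr X m := by
  induction m with
  | zero => rw [pow_zero]; exact C.one_mem X
  | succ m ih => rw [pow_succ]; exact C.mul_mem ih hD

/-- If the correspondence `D^(dim X - i) × z` is killed by `π (2i)` on one side and `π b` on the
other, then `π b` kills `z`. -/
lemma act_eq_zero_of_comp (hP : C.Polarized) {π : ℕ → C.CH (X.prod X)} (h : W.IsCK X π)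
    {i b : ℕ} {z : C.CH X} (hz : z ∈ C.gr X i)
    (H : ∀ y ∈ C.gr X (X.dim - i), C.comp (C.comp (π (2 * i)) (C.ext y z)) (π b) = 0) :
    C.act (π b) z = 0 := by
  by_cases hi : X.dim < i
  · rw [C.gr_eq_bot X i hi, Submodule.mem_bot] at hz
    rw [hz, map_zero]
  obtain ⟨D, hD, hdeg⟩ := hP X
  have h1 := congrArg (fun γ => C.act γ (D ^ i)) (H (D ^ (X.dim - i)) (pow_mem_gr hD _))
  simp only [C.act_comp, C.act_zero, LinearMap.zero_apply, C.act_ext, map_smul] at h1
  rw [deg_proj h hD (by omega)] at h1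
  exact (smul_eq_zero.1 h1).resolve_left hdeg

theorem FaithfulEnd.murreD0 (hP : C.Polarized) (hF : FaithfulEnd W X) : MurreD0 W X := by
  intro π h i x hx hfix hcl
  rw [← hfix]
  by_cases hi : X.dim < i
  · rw [C.gr_eq_bot X i hi, Submodule.mem_bot] at hx
    rw [hx, map_zero]
  refine act_eq_zero_of_comp hP h hx fun y hy => ?_
  have hmem : C.ext y x ∈ C.gr (X.prod X) X.dim := by
    have := C.ext_mem hy hx
    rwa [Nat.sub_add_cancel (by omega)] at this
  refine hF π h (2 * i) _ (C.comp_mem (C.comp_mem (h.mem _) hmem rfl) (h.mem _) rfl) ?_ ?_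
  · rw [C.comp_assoc, C.comp_assoc, C.comp_assoc, h.idem, ← C.comp_assoc, ← C.comp_assoc, h.idem,
      C.comp_assoc]
  · intro a _
    rw [W.act_comp _ (h.mem _), W.act_comp _ hmem, wact_ext W y hx, hcl, smul_zero, map_zero]

theorem NoHomOne.noExcessOne (hP : C.Polarized) (H : NoHomOne W X) : NoExcessOne W X := by
  intro π h i x hx
  by_cases hi : X.dim < i
  · rw [C.gr_eq_bot X i hi, Submodule.mem_bot] at hx
    rw [hx, map_zero]
  refine act_eq_zero_of_comp hP h hx fun y hy => ?_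
  have hmem : C.ext y x ∈ C.gr (X.prod X) X.dim := by
    have := C.ext_mem hy hx
    rwa [Nat.sub_add_cancel (by omega)] at this
  exact H π h (2 * i) _ hmem

theorem noHomOne_of_triangular (H : W.Triangular X) : NoHomOne W X :=
  fun π h b γ hγ => H π π h h b (b + 1) (by omega) γ hγ

theorem MurreD0.mid (H : MurreD0 W X) : MurreD0Mid W X :=
  fun π h i _ x hx hfix hcl => H π h i x hx hfix hcl

theorem FaithfulEnd.mid (H : FaithfulEnd W X) : FaithfulMid W X :=
  fun π h γ hγ hfix h0 => H π h X.dim γ hγ hfix h0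

theorem FaithfulMid.murreD0Mid (hP : C.Polarized) (hF : FaithfulMid W X) : MurreD0Mid W X := by
  intro π h i hi x hx hfix hcl
  rw [← hfix]
  refine act_eq_zero_of_comp hP h hx fun y hy => ?_
  have hmem : C.ext y x ∈ C.gr (X.prod X) X.dim := by
    have := C.ext_mem hy hx
    rwa [Nat.sub_add_cancel (by omega)] at this
  rw [← hi]
  refine hF π h _ (C.comp_mem (C.comp_mem (h.mem _) hmem rfl) (h.mem _) rfl) ?_ ?_
  · rw [C.comp_assoc, C.comp_assoc, C.comp_assoc, h.idem, ← C.comp_assoc, ← C.comp_assoc, h.idem,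
      C.comp_assoc]
  · intro a _
    rw [W.act_comp _ (h.mem _), W.act_comp _ hmem, wact_ext W y hx, hcl, smul_zero, map_zero]

/-- If there are no curves in the class, the peeling lemma kills everything. -/
lemma eq_zero_of_no_curve (hBS : BlochSrinivas C) (hF : HasDegenerating C)
    (hE : ¬∃ E : 𝒱.Obj, E.dim = 1) (a : C.CH X) : a = 0 := by
  obtain ⟨V, S, f, θ, τ, hf⟩ := hF
  exact peel hBS hf fun E h1 => (hE ⟨E, h1⟩).elim

theorem murreD0_of_mid (hP : C.Polarized) (hBS : BlochSrinivas C) (hF : HasDegenerating C)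
    (hW : IsClosedClass P) (H : ∀ X, P X → MurreD0Mid W X) (hX : P X) : MurreD0 W X := by
  intro π h i x hx hfix hcl
  by_cases hE : ∃ E : 𝒱.Obj, E.dim = 1
  · obtain ⟨E, hE⟩ := hE
    obtain ⟨e, he, hd⟩ := exists_deg_one hP hE
    have hn : X.dim + (2 * i - X.dim + (X.dim - 2 * i)) = 2 * i + 0 ∨
        X.dim = 2 * i + 0 + (2 * i - X.dim + (X.dim - 2 * i)) := by omega
    exact of_mid (m := 0) (s := 0) hW hE he hd
      (fun X hX π h i hi x hx hfix hcl => H X hX π h i hi x hx hfix hcl) _ X hX π h i hn x hx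
      hfix hcl
  · exact eq_zero_of_no_curve hBS hF hE x

theorem noExcessOne_of_mid (hP : C.Polarized) (hBS : BlochSrinivas C) (hF : HasDegenerating C)
    (hW : IsClosedClass P) (s : ℕ)
    (H : ∀ X, P X → ∀ (π : ℕ → C.CH (X.prod X)), W.IsCK X π → ∀ (i : ℕ), X.dim = 2 * i + s →
      ∀ x ∈ C.gr X i, C.act (π (2 * i + 1)) x = x → W.cl X x = 0 → x = 0) (hX : P X) :
    NoExcessOne W X := by
  intro π h i x hx
  by_cases hE : ∃ E : 𝒱.Obj, E.dim = 1
  · obtain ⟨E, hE⟩ := hE
    obtain ⟨e, he, hd⟩ := exists_deg_one hP hE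
    have hn : X.dim + (2 * i + s - X.dim + (X.dim - (2 * i + s))) = 2 * i + s ∨
        X.dim = 2 * i + s + (2 * i + s - X.dim + (X.dim - (2 * i + s))) := by omega
    exact of_mid (m := 1) (s := s) hW hE he hd H _ X hX π h i hn _ (act_mem_gr h _ hx)
      (act_idem h _ _) (cl_block h (by omega) hx)
  · exact eq_zero_of_no_curve hBS hF hE _

theorem MurreD0Mid.faithfulEnd (hD : MurreD0Mid W (X.prod X)) : FaithfulEnd W X := by
  intro π h b γ hγ hfix h0
  by_cases hb : 2 * X.dim < b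
  · rw [← hfix, h.eq_zero hb, C.comp_zero]
  have hact : ∀ a, W.act γ a = 0 := by
    have hdec : ∀ a, W.act γ a = W.act (π b) (W.act γ (W.act (π b) a)) := by
      intro a
      conv_lhs => rw [← hfix]
      rw [W.act_comp _ (h.mem b), W.act_comp _ hγ]
    intro a
    refine gr_induction (W.isInternal X) (p := fun a => W.act γ a = 0) ?_ ?_ a
    · intro l a ha
      by_cases hl : l = b
      · subst hl; exact h0 a ha
      · rw [hdec, h.proj b l a ha, if_neg hl, map_zero, map_zero]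
    · intro a a' h1 h2
      rw [map_add, h1, h2, add_zero]
  have hCK := h.transp.prod h
  refine hD _ hCK X.dim (by rw [dim_prod]; omega) γ hγ ?_ (cl_eq_zero_of_act hact)
  have h1 := act_prodCK_block h h (a := b) (by omega) b γ
  rw [hfix, show 2 * X.dim - b + b = 2 * X.dim by omega] at h1
  exact h1

/-- **Theorem 1.** (D) is equivalent to its part of weight zero in the middle dimension and to the
faithfulness of the action of `End(h^d(X))` on `H^d(X)`, `d = dim X`. -/
theorem tfae_D (hP : C.Polarized) (hBS : BlochSrinivas C) (hF : HasDegenerating C)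
    (hW : IsClosedClass P) :
    List.TFAE [∀ X, P X → MurreD W X, ∀ X, P X → MurreD0Mid W X, ∀ X, P X → FaithfulMid W X] := by
  tfae_have 1 → 2 := fun H X hX => (H X hX).murreD0.mid
  tfae_have 2 → 3 := fun H X hX => (H _ (hW.prod_mem hX hX)).faithfulEnd.mid
  tfae_have 3 → 2 := fun H X hX => (H X hX).murreD0Mid hP
  tfae_have 2 → 1 := fun H X hX =>
    have H0 : ∀ X, P X → MurreD0 W X := fun X hX => murreD0_of_mid hP hBS hF hW H hX
    murreD_of (murreB0_of_murreD0 hP hBS hF hW H0 hX) (H0 X hX)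
  tfae_finish

/-- **Theorem 2.** (C) and the first half of (B) are equivalent to `CH^i(h^(2i+1)(X)) = 0`, for
`dim X = 2i + 1`. -/
theorem tfae_B (hP : C.Polarized) (hBS : BlochSrinivas C) (hF : HasDegenerating C)
    (hW : IsClosedClass P) :
    List.TFAE [∀ X, P X → ∀ i : ℕ, W.MurreB0 X i, ∀ X, P X → W.MurreC X,
      ∀ X, P X → NoExcessMid W X, ∀ X, P X → NoHomMid W X] := by
  have h3 : (∀ X, P X → ∀ i : ℕ, W.MurreB0 X i) → ∀ X, P X → W.Triangular X :=
    fun H X hX => (H _ (hW.prod_mem hX hX) _).triangular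
  tfae_have 1 → 2 := fun H X hX => (h3 H X hX).murreC
  tfae_have 2 → 1 := fun H X hX i => (H X hX i 0).murreB0 hP
  tfae_have 1 → 4 := fun H X hX π h γ hγ => noHomOne_of_triangular (h3 H X hX) π h X.dim γ hγ
  tfae_have 1 → 3 := fun H X hX π h i _ x hx =>
    (ckFil_zero_eq_iff h).1 (H X hX i π h) (2 * i + 1) (by omega) x hx
  tfae_have 4 → 1 := by
    intro H X hX i
    refine murreB0_of_noExcessOne hP hBS hF hW (fun X hX => ?_) hX i
    refine noExcessOne_of_mid hP hBS hF hW 0 (fun X hX π h i hi x hx hfix _ => ?_) hX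
    rw [← hfix]
    refine act_eq_zero_of_comp hP h hx fun y hy => ?_
    have hmem : C.ext y x ∈ C.gr (X.prod X) X.dim := by
      have := C.ext_mem hy hx
      rwa [Nat.sub_add_cancel (by omega)] at this
    have h1 := H X hX π h _ hmem
    rwa [show X.dim = 2 * i by omega] at h1
  tfae_have 3 → 1 := by
    intro H X hX i
    refine murreB0_of_noExcessOne hP hBS hF hW (fun X hX => ?_) hX i
    refine noExcessOne_of_mid hP hBS hF hW 1 (fun X hX π h i hi x hx hfix _ => ?_) hX
    rw [← hfix]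
    exact H X hX π h i hi x hx
  tfae_finish

end Pool.Agent.E870.P
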