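import Pool.Agent.E870.P.Defs3
import Pool.Agent.R903.Murre

/-!
# The peeling lemma

If `a × z = 0` for all curves `E` and all `z` in `CH^1(E)` of degree `0`, then `a = 0`.
-/

open CategoryTheory CategoryTheory.Limits AlgebraicGeometry
open Pool.Agent.H914 Pool.Agent.H914.VarClass Pool.Agent.H914.VarClass.Obj Pool.Agent.R903
open Pool.Agent.E870.Q

universe u v w

namespace Pool.Agent.E870.P

variable {k : Type u} [Field k] {𝒱 : VarClass k} {C : ChowTheory.{u, v} 𝒱}

section Chow

variable {X Y Z : 𝒱.Obj}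

lemma ext_zero (x : C.CH X) : C.ext x (0 : C.CH Y) = 0 := by
  simp [ChowTheory.ext]

lemma zero_ext (y : C.CH Y) : C.ext (0 : C.CH X) y = 0 := by
  simp [ChowTheory.ext]

lemma push_fst_pull_snd (Y V : 𝒱.Obj) (y : C.CH V) :
    C.push (fst Y V) (C.pull (snd Y V) y) = algebraMap ℚ (C.CH Y) (C.deg V y) := by
  have h := C.push_snd_pull_fst V Y y
  have e1 : snd Y V = swap Y V ≫ fst V Y := by simp
  have e2 : fst Y V = swap Y V ≫ snd V Y := by simp
  rw [e1, e2, C.pull_comp, C.push_comp, C.push_pull_iso, h]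

lemma times_fst (Y : 𝒱.Obj) {V W : 𝒱.Obj} (w : Mor W V) : times Y w ≫ fst Y V = fst Y W := by
  simp [times]

lemma times_snd (Y : 𝒱.Obj) {V W : 𝒱.Obj} (w : Mor W V) :
    times Y w ≫ snd Y V = snd Y W ≫ w := by
  simp [times]

/-- the peeling lemma -/
theorem peel {V S : 𝒱.Obj} {f : Mor V S} {θ τ : C.CH V} (hBS : BlochSrinivas C)
    (hf : IsDegenerating C f θ τ) {a : C.CH Y}
    (ha : ∀ (E : 𝒱.Obj), E.dim = 1 → ∀ z ∈ C.gr E 1, C.deg E z = 0 → C.ext a z = 0) :
    a = 0 := by
  have h1 : C.ext a θ ∈ overSmaller C f Y := by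
    apply hBS f hf.general
    intro E i hi
    obtain ⟨h1, h2⟩ := hf.fibre E i hi
    have h3 : C.pull (times Y i) (C.ext a θ) = C.ext a (C.pull i θ) := by
      rw [ChowTheory.ext, C.pull_mul, ← C.pull_comp, ← C.pull_comp, times_fst, times_snd,
        C.pull_comp, ChowTheory.ext]
    rw [h3]
    exact ha E h1 _ (C.pull_mem i hf.mem) h2
  have h2 : ∀ γ ∈ overSmaller C f Y, C.push (fst Y V) (γ * C.pull (snd Y V) τ) = 0 := by
    intro γ hγ
    induction hγ using Submodule.span_induction with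
    | mem γ hγ =>
      obtain ⟨W, w, hw, Z, rfl⟩ := hγ
      rw [← C.push_mul, ← C.pull_comp, times_snd, C.pull_comp, hf.small W w hw,
        map_zero, mul_zero, map_zero, map_zero]
    | zero => rw [zero_mul, map_zero]
    | add x y _ _ hx hy => rw [add_mul, map_add, hx, hy, add_zero]
    | smul q x _ hx => rw [smul_mul_assoc, map_smul, hx, smul_zero]
  have h3 := h2 _ h1
  rw [ChowTheory.ext, mul_assoc, ← C.pull_mul, C.mul_push, push_fst_pull_snd,
    mul_comm, ← Algebra.smul_def] at h3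
  exact (smul_eq_zero.1 h3).resolve_left hf.deg_ne

end Chow

end Pool.Agent.E870.P
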